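import Mathlib

/-!
# Free energy functionals (MP_7d29a1_pr, rows 616 and 617): common definitions
-/

namespace Pool.Agent.W7d29a1T2

/-- free energy `log ∑ k, c k * exp (∑ i ∈ A k, φ i)`. -/
noncomputable def FE {n : ℕ} {κ : Type} [Fintype κ] (c : κ → ℝ) (A : κ → Finset (Fin n))
    (φ : Fin n → ℝ) : ℝ :=
  Real.log (∑ k, c k * Real.exp (∑ i ∈ A k, φ i))

/-- potential which is `θ i` at the sites with `a i = true` and `r i` at the others. -/
def up {n : ℕ} (θ : Fin n → ℝ) (a : Fin n → Bool) (r : Fin n → ℝ) : Fin n → ℝ :=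
  fun i => if a i then θ i else r i

end Pool.Agent.W7d29a1T2
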