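import Mathlib
import Pool.Agent.W_7d29a1_t2.Defs36

/-!
# Anti-steepness at constant probability on the hypercube (MP_7d29a1_pr, row 616, fair coins)

helper36.  Positive temperature first/last passage functional on the cube `Fin n → Bool`:
`F x = log ∑ k, c k * exp (∑ i ∈ A k, θ i 1[x i])`, `0 ≤ θ i ≤ Θ`.
If `F ≤ s1` has probability `≥ c1` and `F ≥ s2` has probability `≥ c2`, with `D = s2 - s1` large,
then `F ≥ s2 + K D` has probability `≥ p`, with `p` independent of `n`, `F`.
-/

open Finset

namespace Pool.Agent.W7d29a1Cube36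

/-- one-site transition weight: from `a` to `x`, with probability `p` to go up from `false`. -/
def w (a : Bool) (p : ℝ) (x : Bool) : ℝ :=
  if a then (if x then 1 else 0) else (if x then p else 1 - p)

/-- product transition weight. -/
def W {n : ℕ} (a : Fin n → Bool) (p : Fin n → ℝ) (x : Fin n → Bool) : ℝ :=
  ∏ i, w (a i) (p i) (x i)

lemma w_nonneg (a : Bool) {p : ℝ} (hp : 0 ≤ p) (hp1 : p ≤ 1) (x : Bool) : 0 ≤ w a p x := by
  cases a <;> cases x <;> simp [w, hp, hp1]

lemma W_nonneg {n : ℕ} (a : Fin n → Bool) {p : Fin n → ℝ} (hp : ∀ i, 0 ≤ p i ∧ p i ≤ 1)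
    (x : Fin n → Bool) : 0 ≤ W a p x :=
  Finset.prod_nonneg fun i _ => w_nonneg _ (hp i).1 (hp i).2 _

/-- product formula. -/
lemma sum_W_prod {n : ℕ} (a : Fin n → Bool) (p : Fin n → ℝ) (f : Fin n → Bool → ℝ) :
    ∑ x : Fin n → Bool, W a p x * ∏ i, f i (x i)
      = ∏ i, (w (a i) (p i) false * f i false + w (a i) (p i) true * f i true) := by
  have h1 : ∀ x : Fin n → Bool, W a p x * ∏ i, f i (x i)
      = ∏ i, (w (a i) (p i) (x i) * f i (x i)) := by
    intro x; rw [W, Finset.prod_mul_distrib]
  simp_rw [h1]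
  have h2 := Finset.prod_univ_sum (fun _ : Fin n => (Finset.univ : Finset Bool))
    (fun i b => w (a i) (p i) b * f i b)
  rw [Fintype.piFinset_univ] at h2
  rw [← h2]
  refine Finset.prod_congr rfl fun i _ => ?_
  rw [Fintype.sum_bool]; ring

lemma w_sum (a : Bool) (p : ℝ) : w a p false + w a p true = 1 := by
  cases a <;> simp [w]

lemma W_sum {n : ℕ} (a : Fin n → Bool) (p : Fin n → ℝ) : ∑ x, W a p x = 1 := by
  have h := sum_W_prod a p (fun _ _ => 1)
  simp only [Finset.prod_const_one, mul_one] at h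
  rw [h]
  exact Finset.prod_eq_one fun i _ => w_sum _ _

/-! ### slices -/

lemma sum_cube_succ {n : ℕ} (f : (Fin (n + 1) → Bool) → ℝ) :
    ∑ x, f x = ∑ x : Fin n → Bool, f (Fin.cons false x) + ∑ x : Fin n → Bool, f (Fin.cons true x) := by
  rw [← (Fin.consEquiv (fun _ : Fin (n + 1) => Bool)).sum_comp f, Fintype.sum_prod_type,
    Fintype.sum_bool, add_comm]
  rfl

/-- slice of a set at the value `b` of the first coordinate. -/
def slice {n : ℕ} (b : Bool) (A : Finset (Fin (n + 1) → Bool)) : Finset (Fin n → Bool) :=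
  Finset.univ.filter fun x => (Fin.cons b x : Fin (n + 1) → Bool) ∈ A

lemma mem_slice {n : ℕ} {b : Bool} {A : Finset (Fin (n + 1) → Bool)} {x : Fin n → Bool} :
    x ∈ slice b A ↔ (Fin.cons b x : Fin (n + 1) → Bool) ∈ A := by simp [slice]

lemma sum_slice {n : ℕ} (A : Finset (Fin (n + 1) → Bool)) (f : (Fin (n + 1) → Bool) → ℝ) :
    ∑ a ∈ A, f a = ∑ x ∈ slice false A, f (Fin.cons false x)
      + ∑ x ∈ slice true A, f (Fin.cons true x) := by
  have h := sum_cube_succ (fun a => if a ∈ A then f a else 0)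
  rw [← Finset.sum_filter] at h
  rw [Finset.filter_mem_eq_inter, Finset.univ_inter] at h
  rw [h, slice, slice, Finset.sum_filter, Finset.sum_filter]

lemma card_slice {n : ℕ} (A : Finset (Fin (n + 1) → Bool)) :
    (A.card : ℝ) = (slice false A).card + (slice true A).card := by
  have h := sum_slice A (fun _ => 1)
  simpa using h

lemma W_cons {n : ℕ} (b c : Bool) (a x : Fin n → Bool) (q : ℝ) (p : Fin n → ℝ) :
    W (Fin.cons b a : Fin (n + 1) → Bool) (Fin.cons q p : Fin (n + 1) → ℝ)
      (Fin.cons c x : Fin (n + 1) → Bool) = w b q c * W a p x := by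
  simp [W, Fin.prod_univ_succ]

/-! ### two-point entropy inequalities -/

/-- entropy (relative to the fair coin) of `Ber((1+t)/2)`. -/
noncomputable def ent (t : ℝ) : ℝ :=
  (1 + t) / 2 * Real.log (1 + t) + (1 - t) / 2 * Real.log (1 - t)

lemma ent_le {t : ℝ} (h0 : -1 ≤ t) (h1 : t ≤ 1) : ent t ≤ t ^ 2 := by
  unfold ent
  have a1 : (1 + t) / 2 * Real.log (1 + t) ≤ (1 + t) / 2 * t := by
    rcases eq_or_lt_of_le h0 with h | h
    · simp [← h]
    · refine mul_le_mul_of_nonneg_left ?_ (by linarith)
      have := Real.log_le_sub_one_of_pos (show (0:ℝ) < 1 + t by linarith)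
      linarith
  have a2 : (1 - t) / 2 * Real.log (1 - t) ≤ (1 - t) / 2 * (-t) := by
    rcases eq_or_lt_of_le h1 with h | h
    · simp [h]
    · refine mul_le_mul_of_nonneg_left ?_ (by linarith)
      have := Real.log_le_sub_one_of_pos (show (0:ℝ) < 1 - t by linarith)
      linarith
  nlinarith

lemma le_ent {t : ℝ} (h0 : 0 ≤ t) (h1 : t ≤ 1) : t ^ 2 / 6 ≤ ent t := by
  unfold ent
  have a1 : 2 * t / (t + 2) ≤ Real.log (1 + t) := Real.le_log_one_add_of_nonneg h0
  have a2 : (1 - t) * Real.log (1 - t) ≥ -t := by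
    rcases eq_or_lt_of_le h1 with h | h
    · simp [h]
    · have hpos : (0:ℝ) < 1 - t := by linarith
      have := Real.one_sub_inv_le_log_of_pos hpos
      have h3 : (1 - t) * (1 - (1 - t)⁻¹) ≤ (1 - t) * Real.log (1 - t) :=
        mul_le_mul_of_nonneg_left this hpos.le
      have h4 : (1 - t) * (1 - (1 - t)⁻¹) = -t := by
        field_simp; ring
      linarith
  have a3 : (1 + t) * (2 * t / (t + 2)) ≤ (1 + t) * Real.log (1 + t) :=
    mul_le_mul_of_nonneg_left a1 (by linarith)
  have a4 : t ^ 2 / 3 ≤ (1 + t) * (2 * t / (t + 2)) - t := by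
    have : (1 + t) * (2 * t / (t + 2)) - t = t ^ 2 / (t + 2) := by
      field_simp; ring
    rw [this]
    exact div_le_div_of_nonneg_left (by positivity) (by linarith) (by linarith)
  nlinarith

lemma ent_nonneg {t : ℝ} (h0 : 0 ≤ t) (h1 : t ≤ 1) : 0 ≤ ent t :=
  le_trans (by positivity) (le_ent h0 h1)

/-- Gibbs variational inequality on two points. -/
lemma gibbs2 {t : ℝ} (h0 : -1 ≤ t) (h1 : t ≤ 1) (u v : ℝ) :
    (1 - t) / 2 * u + (1 + t) / 2 * v ≤ ent t + Real.log ((Real.exp u + Real.exp v) / 2) := by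
  set Z : ℝ := (Real.exp u + Real.exp v) / 2 with hZ
  have hZ0 : 0 < Z := by positivity
  have key : ∀ q r : ℝ, 0 ≤ q → 0 < r → q - r ≤ q * (Real.log q - Real.log r) := by
    intro q r hq hr
    rcases eq_or_lt_of_le hq with h | h
    · rw [← h]; simp [hr.le]
    · have := Real.log_le_sub_one_of_pos (div_pos hr h)
      rw [Real.log_div hr.ne' h.ne'] at this
      have h2 : q * (Real.log r - Real.log q) ≤ q * (r / q - 1) :=
        mul_le_mul_of_nonneg_left this h.le
      have h3 : q * (r / q - 1) = r - q := by field_simp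
      nlinarith
  have k1 := key (1 - t) (Real.exp u / Z) (by linarith) (by positivity)
  have k2 := key (1 + t) (Real.exp v / Z) (by linarith) (by positivity)
  rw [Real.log_div (Real.exp_pos _).ne' hZ0.ne', Real.log_exp] at k1 k2
  have h3 : Real.exp u / Z + Real.exp v / Z = 2 := by
    rw [hZ]; field_simp
  unfold ent
  nlinarith

lemma ent_id (n : ℕ) {f t : ℝ} (hf : 0 < f) (ht : 0 ≤ t) :
    f * Real.log (2 ^ n / f) + t * Real.log (2 ^ n / t)
      = (f + t) * (Real.log (2 ^ (n + 1) / (f + t)) - ent ((f - t) / (f + t))) := by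
  have hs : 0 < f + t := by linarith
  have e1 : 1 + (f - t) / (f + t) = 2 * f / (f + t) := by field_simp; ring
  have e2 : 1 - (f - t) / (f + t) = 2 * t / (f + t) := by field_simp; ring
  unfold ent
  rw [e1, e2]
  have hp : (2:ℝ) ^ n ≠ 0 := by positivity
  have hp1 : (2:ℝ) ^ (n + 1) ≠ 0 := by positivity
  rw [Real.log_div hp hf.ne', Real.log_div hp1 hs.ne', Real.log_div (by positivity) hs.ne',
    Real.log_mul (by norm_num) hf.ne', pow_succ, Real.log_mul hp (by norm_num)]
  rcases eq_or_lt_of_le ht with h | h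
  · rw [← h]; field_simp; simp; ring
  · rw [Real.log_div hp h.ne', Real.log_div (by positivity) hs.ne',
      Real.log_mul (by norm_num) h.ne']
    field_simp; ring

/-- small sites boosted by `K1`, big sites switched off. -/
noncomputable def tld (K1 : ℝ) {n : ℕ} (p : Fin n → ℝ) : Fin n → ℝ :=
  fun i => if p i ≤ 1 / (4 * K1) then K1 * p i else 0

lemma tld_cons (K1 : ℝ) {n : ℕ} (q : ℝ) (p : Fin n → ℝ) :
    tld K1 (Fin.cons q p : Fin (n + 1) → ℝ)
      = Fin.cons (if q ≤ 1 / (4 * K1) then K1 * q else 0) (tld K1 p) := by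
  funext i
  refine Fin.cases ?_ (fun j => ?_) i
  · simp [tld]
  · simp [tld]

/-- The four properties of the coupling: bounds, uniform image, entropy of the boosted image,
number of big sites. -/
def Good (K1 : ℝ) {n : ℕ} (A : Finset (Fin n → Bool)) (π : (Fin n → Bool) → Fin n → ℝ) : Prop :=
  (∀ a i, 0 ≤ π a i ∧ π a i ≤ 1 / 2) ∧
  (∀ x, ∑ a ∈ A, W a (π a) x = A.card / 2 ^ n) ∧
  (∀ Ψ : (Fin n → Bool) → ℝ, ∑ a ∈ A, ∑ y, W a (tld K1 (π a)) y * Ψ y
    ≤ A.card * (6 * K1 ^ 2 * Real.log (2 ^ n / A.card)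
        + Real.log ((∑ y, Real.exp (Ψ y)) / 2 ^ n))) ∧
  (∑ a ∈ A, ∑ i, (if a i = false ∧ 1 / (4 * K1) < π a i then (1:ℝ) else 0)
    ≤ A.card * (96 * K1 ^ 2 * Real.log (2 ^ n / A.card)))

lemma entropy_step {K1 f t q u v : ℝ} (hK1 : 1 ≤ K1) (hf : 0 < f) (ht : 0 ≤ t) (htf : t ≤ f)
    (hq : q = if (f - t) / (2 * f) ≤ 1 / (4 * K1) then K1 * ((f - t) / (2 * f)) else 0) :
    (1 - q) * f * u + (q * f + t) * v
      ≤ (f + t) * (6 * K1 ^ 2 * ent ((f - t) / (f + t))
          + Real.log ((Real.exp u + Real.exp v) / 2)) := by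
  have hs : 0 < f + t := by linarith
  set b : ℝ := (f - t) / (f + t) with hb
  have hb0 : 0 ≤ b := div_nonneg (by linarith) hs.le
  have hb1 : b ≤ 1 := by rw [hb, div_le_one hs]; linarith
  have hent := le_ent hb0 hb1
  have hent0 := ent_nonneg hb0 hb1
  have hbs : b * (f + t) = f - t := by rw [hb]; field_simp
  split_ifs at hq with hc
  · -- small site
    have hqf : q * f = K1 * (f - t) / 2 := by rw [hq]; field_simp
    have hc' : q ≤ 1 / 4 := by
      rw [hq]
      calc K1 * ((f - t) / (2 * f)) ≤ K1 * (1 / (4 * K1)) :=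
            mul_le_mul_of_nonneg_left hc (by linarith)
        _ = 1 / 4 := by field_simp
    have ht1 : (K1 - 1) * b ≤ 1 := by
      -- (K1 (f-t)/2 + t) ≤ f/4 + t ≤ f + t
      have h1 : ((K1 - 1) * b) * (f + t) ≤ 1 * (f + t) := by
        have : ((K1 - 1) * b) * (f + t) = 2 * (q * f) - (f - t) := by
          rw [hqf, mul_assoc, hbs]; ring
        rw [this]
        nlinarith
      exact le_of_mul_le_mul_right h1 hs
    have ht0 : -1 ≤ (K1 - 1) * b := le_trans (by norm_num) (mul_nonneg (by linarith) hb0)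
    have hg := gibbs2 ht0 ht1 u v
    have hle := ent_le ht0 ht1
    have h2 : ((K1 - 1) * b) ^ 2 ≤ 6 * K1 ^ 2 * ent b := by
      have h3 : ((K1 - 1) * b) ^ 2 ≤ K1 ^ 2 * b ^ 2 := by
        rw [mul_pow]
        exact mul_le_mul_of_nonneg_right (by nlinarith) (by positivity)
      have h4 : K1 ^ 2 * b ^ 2 ≤ K1 ^ 2 * (6 * ent b) :=
        mul_le_mul_of_nonneg_left (by linarith) (by positivity)
      linarith
    have h5 : (1 - q) * f * u + (q * f + t) * v
        = (f + t) * ((1 - (K1 - 1) * b) / 2 * u + (1 + (K1 - 1) * b) / 2 * v) := by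
      have e1 : (f + t) * ((1 - (K1 - 1) * b) / 2) = f - q * f := by
        have : (f + t) * ((1 - (K1 - 1) * b) / 2) = ((f + t) - (K1 - 1) * (b * (f + t))) / 2 := by
          ring
        rw [this, hbs, hqf]; ring
      have e2 : (f + t) * ((1 + (K1 - 1) * b) / 2) = q * f + t := by
        have : (f + t) * ((1 + (K1 - 1) * b) / 2) = ((f + t) + (K1 - 1) * (b * (f + t))) / 2 := by
          ring
        rw [this, hbs, hqf]; ring
      calc (1 - q) * f * u + (q * f + t) * v = (f - q * f) * u + (q * f + t) * v := by ring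
        _ = (f + t) * ((1 - (K1 - 1) * b) / 2) * u + (f + t) * ((1 + (K1 - 1) * b) / 2) * v := by
            rw [e1, e2]
        _ = _ := by ring
    rw [h5]
    refine mul_le_mul_of_nonneg_left ?_ hs.le
    linarith
  · -- big site
    have hg := gibbs2 (show -1 ≤ -b by linarith) (show -b ≤ 1 by linarith) u v
    have hsym : ent (-b) = ent b := by
      unfold ent
      rw [show 1 + -b = 1 - b by ring, show 1 - -b = 1 + b by ring]; ring
    have h2 : ent b ≤ 6 * K1 ^ 2 * ent b := by
      have : (1:ℝ) ≤ 6 * K1 ^ 2 := by nlinarith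
      nlinarith
    have h5 : (1 - q) * f * u + (q * f + t) * v
        = (f + t) * ((1 - -b) / 2 * u + (1 + -b) / 2 * v) := by
      have e1 : (f + t) * ((1 - -b) / 2) = f := by
        have : (f + t) * ((1 - -b) / 2) = ((f + t) + (b * (f + t))) / 2 := by ring
        rw [this, hbs]; ring
      have e2 : (f + t) * ((1 + -b) / 2) = t := by
        have : (f + t) * ((1 + -b) / 2) = ((f + t) - (b * (f + t))) / 2 := by ring
        rw [this, hbs]; ring
      rw [hq]
      calc (1 - 0) * f * u + (0 * f + t) * v = f * u + t * v := by ring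
        _ = (f + t) * ((1 - -b) / 2) * u + (f + t) * ((1 + -b) / 2) * v := by rw [e1, e2]
        _ = _ := by ring
    rw [h5]
    refine mul_le_mul_of_nonneg_left ?_ hs.le
    rw [hsym] at hg
    linarith

theorem exists_pi {K1 : ℝ} (hK1 : 1 ≤ K1) : ∀ (n : ℕ) (A : Finset (Fin n → Bool)),
    (∀ a ∈ A, ∀ i, Function.update a i false ∈ A) → ∃ π, Good K1 A π := by
  intro n
  induction n with
  | zero =>
    intro A _
    refine ⟨fun _ i => i.elim0, fun a i => i.elim0, ?_, ?_, ?_⟩
    · intro x; simp [W]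
    · intro Ψ
      rcases A.eq_empty_or_nonempty with h | ⟨a, ha⟩
      · simp [h]
      · have hA : A = {a} := by
          apply Finset.eq_singleton_iff_unique_mem.2
          exact ⟨ha, fun x _ => Subsingleton.elim _ _⟩
        rw [hA]
        simp [W]
    · rcases A.eq_empty_or_nonempty with h | ⟨a, ha⟩
      · simp [h]
      · have hA : A = {a} := by
          apply Finset.eq_singleton_iff_unique_mem.2
          exact ⟨ha, fun x _ => Subsingleton.elim _ _⟩
        rw [hA]; simp
  | succ n ih =>
    intro A hA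
    rcases A.eq_empty_or_nonempty with h | ⟨a₀, ha₀⟩
    · refine ⟨fun _ _ => 0, fun a i => by norm_num, ?_, ?_, ?_⟩ <;> simp [h]
    have hsl : ∀ b, ∀ a ∈ slice b A, ∀ i, Function.update a i false ∈ slice b A := by
      intro b a ha i
      rw [mem_slice] at ha ⊢
      rw [Fin.cons_update]
      exact hA _ ha _
    have hsub : slice true A ⊆ slice false A := by
      intro a ha
      rw [mem_slice] at ha ⊢
      have := hA _ ha 0
      rwa [Fin.update_cons_zero] at this
    have hne : (slice false A).Nonempty := by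
      refine ⟨Fin.tail a₀, ?_⟩
      rw [mem_slice]
      have := hA _ ha₀ 0
      rw [← Fin.cons_self_tail a₀, Fin.update_cons_zero] at this
      exact this
    obtain ⟨πf, hf1, hf2, hf4, hf5⟩ := ih (slice false A) (hsl false)
    obtain ⟨πt, ht1, ht2, ht4, ht5⟩ := ih (slice true A) (hsl true)
    set f : ℝ := ((slice false A).card : ℝ) with hfdef
    set t : ℝ := ((slice true A).card : ℝ) with htdef
    have hcard : (A.card : ℝ) = f + t := card_slice A
    have hf : 0 < f := by rw [hfdef]; exact_mod_cast hne.card_pos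
    have ht : 0 ≤ t := by rw [htdef]; positivity
    have htf : t ≤ f := by
      rw [hfdef, htdef]; exact_mod_cast Finset.card_le_card hsub
    have hs : 0 < f + t := by linarith
    set q0 : ℝ := (f - t) / (2 * f) with hq0
    have hq00 : 0 ≤ q0 := div_nonneg (by linarith) (by linarith)
    have hq01 : q0 ≤ 1 / 2 := by
      rw [hq0, div_le_div_iff₀ (by linarith) (by norm_num)]; linarith
    have hb0 : 0 ≤ (f - t) / (f + t) := div_nonneg (by linarith) hs.le
    have hb1 : (f - t) / (f + t) ≤ 1 := by rw [div_le_one hs]; linarith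
    have hid := ent_id n hf ht
    set b : ℝ := (f - t) / (f + t) with hb
    set L : ℝ := Real.log (2 ^ (n + 1) / (f + t)) with hL
    -- the coupling
    refine ⟨fun a => Fin.cons q0 (if a 0 then πt (Fin.tail a) else πf (Fin.tail a)), ?_, ?_, ?_, ?_⟩
    · intro a i
      refine Fin.cases ?_ (fun j => ?_) i
      · simp only [Fin.cons_zero]; exact ⟨hq00, hq01⟩
      · simp only [Fin.cons_succ]
        split_ifs
        · exact ht1 _ _
        · exact hf1 _ _
    · intro x
      rw [sum_slice]
      have hx : x = Fin.cons (x 0) (Fin.tail x) := (Fin.cons_self_tail x).symm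
      rw [hx]
      simp only [Fin.cons_zero, Fin.tail_cons, Bool.false_eq_true, if_false, if_true, W_cons]
      rw [← Finset.mul_sum, ← Finset.mul_sum, hf2, ht2, hcard]
      have hp : (2:ℝ) ^ n ≠ 0 := by positivity
      rcases (x 0) with _ | _
      · simp only [w, Bool.false_eq_true, if_false, if_true]
        rw [hq0, pow_succ]; field_simp; ring
      · simp only [w, Bool.false_eq_true, if_false, if_true]
        rw [hq0, pow_succ]; field_simp; ring
    · intro Ψ
      rw [sum_slice, hcard]
      simp only [Fin.cons_zero, Fin.tail_cons, Bool.false_eq_true, if_false, if_true, tld_cons]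
      set q : ℝ := if q0 ≤ 1 / (4 * K1) then K1 * q0 else 0 with hq
      simp only [sum_cube_succ, W_cons, w, Bool.false_eq_true, if_false, if_true, zero_mul,
        one_mul, Finset.sum_const_zero, zero_add]
      have E1 : ∑ a ∈ slice false A,
          (∑ y, (1 - q) * W a (tld K1 (πf a)) y * Ψ (Fin.cons false y)
            + ∑ y, q * W a (tld K1 (πf a)) y * Ψ (Fin.cons true y))
          = (1 - q) * (∑ a ∈ slice false A, ∑ y, W a (tld K1 (πf a)) y * Ψ (Fin.cons false y))
            + q * (∑ a ∈ slice false A, ∑ y, W a (tld K1 (πf a)) y * Ψ (Fin.cons true y)) := by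
        rw [Finset.sum_add_distrib, Finset.mul_sum, Finset.mul_sum]
        simp_rw [Finset.mul_sum, mul_assoc]
      rw [E1]
      have hq0' : 0 ≤ q := by
        rw [hq]; split_ifs
        · exact mul_nonneg (by linarith) hq00
        · exact le_rfl
      have hq1' : q ≤ 1 := by
        rw [hq]; split_ifs with h
        · calc K1 * q0 ≤ K1 * (1 / (4 * K1)) := mul_le_mul_of_nonneg_left h (by linarith)
            _ = 1 / 4 := by field_simp
            _ ≤ 1 := by norm_num
        · norm_num
      have I1 := hf4 (fun y => Ψ (Fin.cons false y))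
      have I2 := hf4 (fun y => Ψ (Fin.cons true y))
      have I3 := ht4 (fun y => Ψ (Fin.cons true y))
      set Sf : ℝ := ∑ y : Fin n → Bool, Real.exp (Ψ (Fin.cons false y)) with hSf
      set St : ℝ := ∑ y : Fin n → Bool, Real.exp (Ψ (Fin.cons true y)) with hSt
      have hSf0 : 0 < Sf := Finset.sum_pos (fun _ _ => Real.exp_pos _) Finset.univ_nonempty
      have hSt0 : 0 < St := Finset.sum_pos (fun _ _ => Real.exp_pos _) Finset.univ_nonempty
      have hstep := entropy_step (q := q) (u := Real.log (Sf / 2 ^ n)) (v := Real.log (St / 2 ^ n))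
        hK1 hf ht htf rfl
      rw [Real.exp_log (by positivity), Real.exp_log (by positivity)] at hstep
      have hZ : (Sf / 2 ^ n + St / 2 ^ n) / 2 = (Sf + St) / 2 ^ (n + 1) := by
        rw [pow_succ]; field_simp
      rw [hZ] at hstep
      have J1 := mul_le_mul_of_nonneg_left I1 (show 0 ≤ 1 - q by linarith)
      have J2 := mul_le_mul_of_nonneg_left I2 hq0'
      have hsum : 6 * K1 ^ 2 * (f * Real.log (2 ^ n / f) + t * Real.log (2 ^ n / t))
          = 6 * K1 ^ 2 * ((f + t) * (L - ent b)) := by rw [hid]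
      generalize Real.log (2 ^ n / f) = lf at *
      generalize Real.log (2 ^ n / t) = lt at *
      generalize Real.log (Sf / 2 ^ n) = uf at *
      generalize Real.log (St / 2 ^ n) = ut at *
      generalize Real.log ((Sf + St) / 2 ^ (n + 1)) = Z at *
      linarith
    · rw [sum_slice, hcard]
      simp only [Fin.sum_univ_succ, Fin.cons_zero, Fin.cons_succ, Fin.tail_cons,
        Bool.false_eq_true, if_false, if_true, true_and, false_and, zero_add,
        Bool.true_eq_false]
      rw [Finset.sum_add_distrib, Finset.sum_const, nsmul_eq_mul, ← hfdef]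
      have hent := le_ent hb0 hb1
      have key : f * (if 1 / (4 * K1) < q0 then (1:ℝ) else 0)
          ≤ (f + t) * (96 * K1 ^ 2 * ent b) := by
        split_ifs with h
        · have hqb : q0 ≤ b := by
            rw [hq0, hb]
            exact div_le_div_of_nonneg_left (by linarith) hs (by linarith)
          have h1 : 1 / (4 * K1) < b := lt_of_lt_of_le h hqb
          have h0 : 0 < 1 / (4 * K1) := by positivity
          have h2 : (1 / (4 * K1)) ^ 2 ≤ b ^ 2 := by
            exact pow_le_pow_left₀ h0.le h1.le 2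
          have h3 : 1 ≤ 96 * K1 ^ 2 * ent b := by
            have h4 : 96 * K1 ^ 2 * ((1 / (4 * K1)) ^ 2 / 6) ≤ 96 * K1 ^ 2 * ent b := by
              refine mul_le_mul_of_nonneg_left ?_ (by positivity)
              linarith
            have h5 : 96 * K1 ^ 2 * ((1 / (4 * K1)) ^ 2 / 6) = 1 := by
              field_simp; norm_num
            linarith
          nlinarith
        · have := ent_nonneg hb0 hb1
          rw [mul_zero]
          positivity
      have hsum : 96 * K1 ^ 2 * (f * Real.log (2 ^ n / f) + t * Real.log (2 ^ n / t))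
          = 96 * K1 ^ 2 * ((f + t) * (L - ent b)) := by rw [hid]
      linarith

end Pool.Agent.W7d29a1Cube36
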