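import Mathlib
import Pool.Agent.W_7d29a1_t2.Defs36
import Pool.Agent.W_7d29a1_t2.Coupling36

/-!
# Anti-steepness at constant probability on the hypercube, main theorem

helper36 (MP_7d29a1_pr, row 616, fair coins).
-/

open Finset

namespace Pool.Agent.W7d29a1Cube36

open Pool.Agent.W7d29a1T2 (FE up)

section FE

variable {n : ℕ} {κ : Type} [Fintype κ] {c : κ → ℝ} {A : κ → Finset (Fin n)}

/-- the partition function. -/
noncomputable def Zf (c : κ → ℝ) (A : κ → Finset (Fin n)) (φ : Fin n → ℝ) : ℝ :=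
  ∑ k, c k * Real.exp (∑ i ∈ A k, φ i)

lemma Zf_pos (hc : ∀ k, 0 ≤ c k) (hc' : ∃ k, 0 < c k) (φ : Fin n → ℝ) : 0 < Zf c A φ := by
  obtain ⟨k, hk⟩ := hc'
  exact Finset.sum_pos' (fun k _ => mul_nonneg (hc k) (Real.exp_pos _).le)
    ⟨k, Finset.mem_univ _, mul_pos hk (Real.exp_pos _)⟩

lemma FE_eq (φ : Fin n → ℝ) : FE c A φ = Real.log (Zf c A φ) := rfl

lemma exp_FE (hc : ∀ k, 0 ≤ c k) (hc' : ∃ k, 0 < c k) (φ : Fin n → ℝ) :
    Real.exp (FE c A φ) = Zf c A φ := by
  rw [FE_eq, Real.exp_log (Zf_pos hc hc' φ)]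

/-- comparison: if every path sum increases by at most `δ`, so does `FE`. -/
lemma FE_le_add (hc : ∀ k, 0 ≤ c k) (hc' : ∃ k, 0 < c k) {φ ψ : Fin n → ℝ} {δ : ℝ}
    (h : ∀ k, ∑ i ∈ A k, φ i ≤ ∑ i ∈ A k, ψ i + δ) : FE c A φ ≤ FE c A ψ + δ := by
  have h1 : Zf c A φ ≤ Zf c A ψ * Real.exp δ := by
    unfold Zf
    rw [Finset.sum_mul]
    refine Finset.sum_le_sum fun k _ => ?_
    rw [mul_assoc, ← Real.exp_add]
    exact mul_le_mul_of_nonneg_left (Real.exp_le_exp.2 (h k)) (hc k)
  rw [FE_eq, FE_eq]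
  calc Real.log (Zf c A φ) ≤ Real.log (Zf c A ψ * Real.exp δ) :=
        Real.log_le_log (Zf_pos hc hc' φ) h1
    _ = _ := by rw [Real.log_mul (Zf_pos hc hc' ψ).ne' (Real.exp_pos _).ne', Real.log_exp]

lemma FE_mono (hc : ∀ k, 0 ≤ c k) (hc' : ∃ k, 0 < c k) {φ ψ : Fin n → ℝ}
    (h : ∀ i, φ i ≤ ψ i) : FE c A φ ≤ FE c A ψ := by
  have := FE_le_add (A := A) hc hc' (φ := φ) (ψ := ψ) (δ := 0)
    (fun k => by rw [add_zero]; exact Finset.sum_le_sum fun i _ => h i)
  simpa using this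

/-- the gradient (Gibbs probability that the path uses `i`). -/
noncomputable def grad (c : κ → ℝ) (A : κ → Finset (Fin n)) (φ : Fin n → ℝ) (i : Fin n) : ℝ :=
  (∑ k, if i ∈ A k then c k * Real.exp (∑ j ∈ A k, φ j) else 0) / Zf c A φ

lemma grad_nonneg (hc : ∀ k, 0 ≤ c k) (hc' : ∃ k, 0 < c k) (φ : Fin n → ℝ) (i : Fin n) :
    0 ≤ grad c A φ i := by
  refine div_nonneg (Finset.sum_nonneg fun k _ => ?_) (Zf_pos hc hc' φ).le
  split_ifs
  · exact mul_nonneg (hc k) (Real.exp_pos _).le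
  · exact le_rfl

lemma grad_le_one (hc : ∀ k, 0 ≤ c k) (hc' : ∃ k, 0 < c k) (φ : Fin n → ℝ) (i : Fin n) :
    grad c A φ i ≤ 1 := by
  rw [grad, div_le_one (Zf_pos hc hc' φ)]
  refine Finset.sum_le_sum fun k _ => ?_
  split_ifs
  · exact le_rfl
  · exact mul_nonneg (hc k) (Real.exp_pos _).le

/-- first order convexity. -/
lemma FE_convex (hc : ∀ k, 0 ≤ c k) (hc' : ∃ k, 0 < c k) (φ ψ : Fin n → ℝ) :
    FE c A φ + ∑ i, grad c A φ i * (ψ i - φ i) ≤ FE c A ψ := by
  set Z := Zf c A φ with hZ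
  have hZ0 : 0 < Z := Zf_pos hc hc' φ
  set m : ℝ := ∑ i, grad c A φ i * (ψ i - φ i) with hm
  -- m * Z = ∑ k, c k e^{S_k φ} S_k(ψ-φ)
  have hmZ : m * Z = ∑ k, c k * Real.exp (∑ j ∈ A k, φ j) * ∑ i ∈ A k, (ψ i - φ i) := by
    rw [hm, Finset.sum_mul]
    have : ∀ i, grad c A φ i * (ψ i - φ i) * Z
        = ∑ k, if i ∈ A k then c k * Real.exp (∑ j ∈ A k, φ j) * (ψ i - φ i) else 0 := by
      intro i
      rw [grad, ← hZ]
      rw [show ∀ a b : ℝ, a / Z * b * Z = a * b by intro a b; field_simp]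
      rw [Finset.sum_mul]
      refine Finset.sum_congr rfl fun k _ => ?_
      split_ifs <;> simp
    simp_rw [this]
    rw [Finset.sum_comm]
    refine Finset.sum_congr rfl fun k _ => ?_
    rw [Finset.mul_sum, ← Finset.sum_filter]
    congr 1
    ext i; simp
  have hmain : Real.exp m * Z ≤ Zf c A ψ := by
    have h1 : ∀ k, c k * Real.exp (∑ j ∈ A k, φ j)
        * (Real.exp m * (1 + (∑ i ∈ A k, (ψ i - φ i)) - m))
        ≤ c k * Real.exp (∑ j ∈ A k, ψ j) := by
      intro k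
      rw [mul_assoc]
      refine mul_le_mul_of_nonneg_left ?_ (hc k)
      have h2 := Real.add_one_le_exp ((∑ i ∈ A k, (ψ i - φ i)) - m)
      have h3 : Real.exp (∑ j ∈ A k, ψ j)
          = Real.exp (∑ j ∈ A k, φ j) * (Real.exp m * Real.exp ((∑ i ∈ A k, (ψ i - φ i)) - m)) := by
        rw [← Real.exp_add, ← Real.exp_add]
        congr 1
        rw [Finset.sum_sub_distrib]; ring
      rw [h3]
      refine mul_le_mul_of_nonneg_left ?_ (Real.exp_pos _).le
      refine mul_le_mul_of_nonneg_left ?_ (Real.exp_pos _).le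
      linarith
    have h4 := Finset.sum_le_sum (fun k (_ : k ∈ Finset.univ) => h1 k)
    have h5 : ∑ k, c k * Real.exp (∑ j ∈ A k, φ j)
        * (Real.exp m * (1 + (∑ i ∈ A k, (ψ i - φ i)) - m))
        = Real.exp m * ((1 - m) * Z + m * Z) := by
      rw [hmZ]
      conv_rhs => rw [hZ, Zf]
      rw [mul_add, ← mul_assoc, Finset.mul_sum, Finset.mul_sum, ← Finset.sum_add_distrib]
      refine Finset.sum_congr rfl fun k _ => ?_
      ring
    rw [h5] at h4
    have h6 : Real.exp m * ((1 - m) * Z + m * Z) = Real.exp m * Z := by ring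
    rw [h6] at h4
    exact h4
  rw [FE_eq, FE_eq, ← hZ]
  calc Real.log Z + m = Real.log (Real.exp m * Z) := by
        rw [Real.log_mul (Real.exp_pos _).ne' hZ0.ne', Real.log_exp]; ring
    _ ≤ _ := Real.log_le_log (by positivity) hmain

/-- annealed average of the partition function over the sprinkling. -/
lemma annealed (θ : Fin n → ℝ) (hθ : ∀ i, 0 ≤ θ i) (a : Fin n → Bool) (p : Fin n → ℝ)
    (hp : ∀ i, 0 ≤ p i) :
    ∑ x, W a p x * Zf c A (up θ x 0)
      = Zf c A (up θ a fun i => Real.log (1 + p i * (Real.exp (θ i) - 1))) := by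
  have h1 : ∀ (x : Fin n → Bool) (k : κ), Real.exp (∑ i ∈ A k, up θ x 0 i)
      = ∏ i, (if i ∈ A k then (if x i then Real.exp (θ i) else 1) else 1) := by
    intro x k
    rw [Real.exp_sum, ← Finset.prod_ite_mem_eq (A k)]
    refine Finset.prod_congr rfl fun i _ => ?_
    cases h : x i <;> simp [up, h]
  have h2 : ∀ k : κ, ∑ x, W a p x * ∏ i, (if i ∈ A k then (if x i then Real.exp (θ i) else 1) else 1)
      = Real.exp (∑ i ∈ A k, (up θ a fun i => Real.log (1 + p i * (Real.exp (θ i) - 1))) i) := by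
    intro k
    rw [sum_W_prod a p (fun i b => if i ∈ A k then (if b then Real.exp (θ i) else 1) else 1)]
    rw [Real.exp_sum, ← Finset.prod_ite_mem_eq (A k)]
    refine Finset.prod_congr rfl fun i _ => ?_
    by_cases hi : i ∈ A k
    · simp only [hi, if_true]
      cases h : a i
      · have hpos : 0 < 1 + p i * (Real.exp (θ i) - 1) := by
          have := Real.one_le_exp (hθ i)
          have := mul_nonneg (hp i) (show 0 ≤ Real.exp (θ i) - 1 by linarith)
          linarith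
        simp only [w, up, h, Bool.false_eq_true, if_false, if_true]
        rw [Real.exp_log hpos]; ring
      · simp [w, up, h]
    · simp only [hi, if_false, mul_one]
      exact w_sum _ _
  unfold Zf
  simp_rw [h1, Finset.mul_sum]
  rw [Finset.sum_comm]
  refine Finset.sum_congr rfl fun k _ => ?_
  rw [← h2 k, Finset.mul_sum]
  refine Finset.sum_congr rfl fun x _ => ?_
  ring

lemma one_sub_exp_neg_ge {s : ℝ} (h0 : 0 ≤ s) (h1 : s ≤ 1) : Real.exp (-s) ≤ 1 - s / 2 := by
  rw [Real.exp_neg, inv_le_comm₀ (Real.exp_pos _) (by linarith)]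
  have h2 := Real.add_one_le_exp s
  refine le_trans ?_ h2
  rw [inv_le_comm₀ (by linarith) (by linarith)]
  rw [← one_div, div_le_iff₀ (by linarith)]
  nlinarith

/-- back to an environment: the sprinkling with probabilities `p` beats the deterministic bump
`r i ≤ p i θ i / 2`, up to `2 Θ`, with probability `≥ 3/4`. -/
lemma back {Θ : ℝ} (hΘ : 0 < Θ) (hc : ∀ k, 0 ≤ c k) (hc' : ∃ k, 0 < c k)
    (θ : Fin n → ℝ) (hθ : ∀ i, 0 ≤ θ i ∧ θ i ≤ Θ) (a : Fin n → Bool) (p r : Fin n → ℝ)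
    (hp : ∀ i, 0 ≤ p i ∧ p i ≤ 1) (hr : ∀ i, r i ≤ p i * θ i / 2) (s : ℝ)
    (hs : s + 2 * Θ ≤ FE c A (up θ a r)) :
    3 / 4 ≤ ∑ y, W a p y * (if s ≤ FE c A (up θ y 0) then (1:ℝ) else 0) := by
  set g := grad c A (up θ a r) with hg
  have hg0 : ∀ i, 0 ≤ g i := grad_nonneg hc hc' _
  have hg1 : ∀ i, g i ≤ 1 := grad_le_one hc hc' _
  have hW : ∀ y, 0 ≤ W a p y := W_nonneg a hp
  -- the exponential moment
  have hmom : ∑ y, W a p y * ∏ i, Real.exp (-(g i * (up θ y 0 i - up θ a r i)) / Θ) ≤ 1 := by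
    have h1 : ∀ y : Fin n → Bool, ∏ i, Real.exp (-(g i * (up θ y 0 i - up θ a r i)) / Θ)
        = ∏ i, (fun (i : Fin n) (b : Bool) =>
          Real.exp (-(g i * ((if b then θ i else 0) - up θ a r i)) / Θ)) i (y i) := by
      intro y; rfl
    simp only [h1]
    rw [sum_W_prod a p (fun (i : Fin n) (b : Bool) =>
          Real.exp (-(g i * ((if b then θ i else 0) - up θ a r i)) / Θ))]
    refine Finset.prod_le_one (fun i _ => ?_) (fun i _ => ?_)
    · have := w_nonneg (a i) (hp i).1 (hp i).2 false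
      have := w_nonneg (a i) (hp i).1 (hp i).2 true
      positivity
    · simp only [Bool.false_eq_true, if_false, if_true]
      cases h : a i
      · simp only [w, up, h, Bool.false_eq_true, if_false, if_true]
        set t : ℝ := g i * θ i / Θ with ht
        have ht0 : 0 ≤ t := div_nonneg (mul_nonneg (hg0 i) (hθ i).1) hΘ.le
        have ht1 : t ≤ 1 := by
          rw [ht, div_le_one hΘ]
          calc g i * θ i ≤ 1 * Θ :=
                mul_le_mul (hg1 i) (hθ i).2 (hθ i).1 (by norm_num)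
            _ = Θ := one_mul _
        have e1 : -(g i * (0 - r i)) / Θ = g i * r i / Θ := by ring
        have e2 : -(g i * (θ i - r i)) / Θ = g i * r i / Θ + -t := by rw [ht]; ring
        rw [e1, e2, Real.exp_add]
        have h3 := one_sub_exp_neg_ge ht0 ht1
        have h4 : (1 - p i) * Real.exp (g i * r i / Θ)
            + p i * (Real.exp (g i * r i / Θ) * Real.exp (-t))
            ≤ Real.exp (g i * r i / Θ) * (1 - p i * t / 2) := by
          have : (1 - p i) * Real.exp (g i * r i / Θ)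
            + p i * (Real.exp (g i * r i / Θ) * Real.exp (-t))
            = Real.exp (g i * r i / Θ) * (1 - p i + p i * Real.exp (-t)) := by ring
          rw [this]
          refine mul_le_mul_of_nonneg_left ?_ (Real.exp_pos _).le
          nlinarith [(hp i).1]
        refine le_trans h4 ?_
        have h5 : 1 - p i * t / 2 ≤ Real.exp (-(p i * t / 2)) := by
          have := Real.add_one_le_exp (-(p i * t / 2)); linarith
        refine le_trans (mul_le_mul_of_nonneg_left h5 (Real.exp_pos _).le) ?_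
        rw [← Real.exp_add]
        refine Real.exp_le_one_iff.2 ?_
        have h6 : g i * r i / Θ ≤ g i * (p i * θ i / 2) / Θ := by
          exact div_le_div_of_nonneg_right (mul_le_mul_of_nonneg_left (hr i) (hg0 i)) hΘ.le
        have h7 : g i * (p i * θ i / 2) / Θ = p i * t / 2 := by rw [ht]; ring
        linarith
      · simp [w, up, h]
  have hpt : ∀ y, (1:ℝ) - (if s ≤ FE c A (up θ y 0) then (1:ℝ) else 0)
      ≤ Real.exp (-2) * ∏ i, Real.exp (-(g i * (up θ y 0 i - up θ a r i)) / Θ) := by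
    intro y
    split_ifs with h
    · rw [sub_self]; positivity
    · push Not at h
      have h1 := FE_convex hc hc' (A := A) (up θ a r) (up θ y 0)
      rw [← hg] at h1
      have h2 : ∑ i, g i * (up θ y 0 i - up θ a r i) ≤ -(2 * Θ) := by linarith
      rw [← Real.exp_sum, ← Real.exp_add, sub_zero, ← Finset.sum_div, Finset.sum_neg_distrib]
      refine Real.one_le_exp ?_
      have h3 : (2 * Θ) / Θ ≤ (-∑ i, g i * (up θ y 0 i - up θ a r i)) / Θ :=
        div_le_div_of_nonneg_right (by linarith) hΘ.le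
      have h4 : 2 * Θ / Θ = 2 := by field_simp
      linarith
  have hsum : 1 - ∑ y, W a p y * (if s ≤ FE c A (up θ y 0) then (1:ℝ) else 0)
      ≤ Real.exp (-2) := by
    calc 1 - ∑ y, W a p y * (if s ≤ FE c A (up θ y 0) then (1:ℝ) else 0)
        = ∑ y, W a p y * (1 - (if s ≤ FE c A (up θ y 0) then (1:ℝ) else 0)) := by
          simp_rw [mul_sub, mul_one]
          rw [Finset.sum_sub_distrib, W_sum]
      _ ≤ ∑ y, W a p y * (Real.exp (-2)
            * ∏ i, Real.exp (-(g i * (up θ y 0 i - up θ a r i)) / Θ)) :=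
          Finset.sum_le_sum fun y _ => mul_le_mul_of_nonneg_left (hpt y) (hW y)
      _ = Real.exp (-2) * ∑ y, W a p y
            * ∏ i, Real.exp (-(g i * (up θ y 0 i - up θ a r i)) / Θ) := by
          rw [Finset.mul_sum]
          refine Finset.sum_congr rfl fun y _ => by ring
      _ ≤ Real.exp (-2) * 1 := mul_le_mul_of_nonneg_left hmom (Real.exp_pos _).le
      _ = _ := mul_one _
  have h2 : Real.exp (-2) ≤ 1 / 4 := by
    rw [Real.exp_neg, inv_le_comm₀ (Real.exp_pos _) (by norm_num)]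
    have h3 : Real.exp 2 = Real.exp 1 * Real.exp 1 := by rw [← Real.exp_add]; norm_num
    have h4 := Real.add_one_le_exp (1:ℝ)
    rw [h3]; norm_num; nlinarith
  linarith

/-- Convexity along the bump: `FE (base + k ρ) ≥ k FE (base + ρ) - (k - 1) FE (base)`. -/
lemma convex_bump (hc : ∀ k, 0 ≤ c k) (hc' : ∃ k, 0 < c k) (θ : Fin n → ℝ) (a : Fin n → Bool)
    (r : Fin n → ℝ) {kk : ℝ} (hk : 1 ≤ kk) :
    kk * FE c A (up θ a r) - (kk - 1) * FE c A (up θ a 0)
      ≤ FE c A (up θ a fun i => kk * r i) := by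
  have h1 := FE_convex hc hc' (A := A) (up θ a r) (up θ a 0)
  have h2 := FE_convex hc hc' (A := A) (up θ a r) (up θ a fun i => kk * r i)
  set g := grad c A (up θ a r)
  have h3 : ∑ i, g i * (up θ a (fun i => kk * r i) i - up θ a r i)
      = -((kk - 1) * ∑ i, g i * (up θ a 0 i - up θ a r i)) := by
    rw [Finset.mul_sum, ← Finset.sum_neg_distrib]
    refine Finset.sum_congr rfl fun i _ => ?_
    cases h : a i
    · simp [up, h]; ring
    · simp [up, h]
  rw [h3] at h2
  have h4 := mul_le_mul_of_nonneg_left h1 (show 0 ≤ kk - 1 by linarith)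
  linarith

lemma exp_sub_one_le {t Θ : ℝ} (h0 : 0 ≤ t) (h1 : t ≤ Θ) : Real.exp t - 1 ≤ t * Real.exp Θ := by
  have h2 := Real.add_one_le_exp (-t)
  have h3 : Real.exp t * Real.exp (-t) = 1 := by rw [← Real.exp_add]; simp
  have h4 := Real.exp_pos t
  have h5 : Real.exp t - 1 ≤ t * Real.exp t := by nlinarith
  have h6 : t * Real.exp t ≤ t * Real.exp Θ :=
    mul_le_mul_of_nonneg_left (Real.exp_le_exp.2 h1) h0
  linarith

end FE

/-- MAIN THEOREM, explicit form. -/
theorem cube_antisteep_explicit {Θ K c1 c2 : ℝ} (hΘ : 0 < Θ) (hK : 1 ≤ K) (hc1 : 0 < c1)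
    (hc2 : 0 < c2) {K1 L : ℝ} (hK1d : K1 = 2 * (K + 2) * Real.exp Θ)
    (hLd : L = 1 + Real.log (1 / c1)) (n : ℕ) (κ : Type) [Fintype κ] (c : κ → ℝ)
    (A : κ → Finset (Fin n)) (θ : Fin n → ℝ) (s1 s2 : ℝ) (hc : ∀ k, 0 ≤ c k)
    (hc' : ∃ k, 0 < c k) (hθ : ∀ i, 0 ≤ θ i ∧ θ i ≤ Θ)
    (hD : (K + 2) * (Real.log (4 / c2) + Θ * (384 * K1 ^ 2 * L / c2)) + 2 * Θ ≤ s2 - s1)
    (hP1 : c1 * 2 ^ n ≤ ((univ.filter fun x : Fin n → Bool => FE c A (up θ x 0) ≤ s1).card : ℝ))
    (hP2 : c2 * 2 ^ n ≤ ((univ.filter fun x : Fin n → Bool => s2 ≤ FE c A (up θ x 0)).card : ℝ)) :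
    Real.exp (-(8 / (3 * c2) * (6 * K1 ^ 2 * L + Real.log 2))) * 2 ^ n
      ≤ ((univ.filter fun x : Fin n → Bool =>
          s2 + K * (s2 - s1) ≤ FE c A (up θ x 0)).card : ℝ) := by
  classical
  have hexpΘ : 1 ≤ Real.exp Θ := Real.one_le_exp hΘ.le
  have hK1 : 1 ≤ K1 := by rw [hK1d]; nlinarith
  have h2n : (0:ℝ) < 2 ^ n := by positivity
  -- the down set
  set S : Finset (Fin n → Bool) := univ.filter fun x => FE c A (up θ x 0) ≤ s1 with hS
  have hmemS : ∀ a, a ∈ S ↔ FE c A (up θ a 0) ≤ s1 := by intro a; simp [hS]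
  have hdown : ∀ a ∈ S, ∀ i, Function.update a i false ∈ S := by
    intro a ha i
    rw [hmemS] at ha ⊢
    refine le_trans (FE_mono hc hc' fun j => ?_) ha
    by_cases hj : j = i
    · subst hj
      simp only [up, Function.update_self, Bool.false_eq_true, if_false, Pi.zero_apply]
      split_ifs
      · exact (hθ j).1
      · exact le_rfl
    · simp [up, Function.update_of_ne hj]
  obtain ⟨π, hπ1, hπ2, hπ4, hπ5⟩ := exists_pi hK1 n S hdown
  set N : ℝ := (S.card : ℝ) with hN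
  have hN0 : 0 < N := lt_of_lt_of_le (mul_pos hc1 h2n) hP1
  -- log bound
  have hlog : Real.log (2 ^ n / N) ≤ L := by
    have h1 : 2 ^ n / N ≤ 1 / c1 := by
      rw [div_le_div_iff₀ hN0 hc1]; linarith
    have h2 := Real.log_le_log (by positivity) h1
    rw [hLd]; linarith
  have hNle : N ≤ 2 ^ n := by
    have h1 : S.card ≤ (univ : Finset (Fin n → Bool)).card := Finset.card_le_card (Finset.subset_univ _)
    have h2 : ((univ : Finset (Fin n → Bool)).card : ℝ) = 2 ^ n := by simp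
    rw [hN, ← h2]; exact_mod_cast h1
  have hL1 : 1 ≤ L := by
    have h1 : (1:ℝ) ≤ 1 / c1 := by
      rw [le_div_iff₀ hc1]
      have : c1 * 2 ^ n ≤ 1 * 2 ^ n := by linarith
      have := le_of_mul_le_mul_right this h2n
      linarith
    have := Real.log_nonneg h1
    rw [hLd]; linarith
  -- the bumps
  set ρ : (Fin n → Bool) → Fin n → ℝ := fun a i => Real.log (1 + π a i * (Real.exp (θ i) - 1))
    with hρ
  set ρs : (Fin n → Bool) → Fin n → ℝ := fun a i => if π a i ≤ 1 / (4 * K1) then ρ a i else 0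
    with hρs
  have harg : ∀ a i, 0 ≤ π a i * (Real.exp (θ i) - 1) := fun a i =>
    mul_nonneg (hπ1 a i).1 (by have := Real.one_le_exp (hθ i).1; linarith)
  have hρ0 : ∀ a i, 0 ≤ ρ a i := fun a i => Real.log_nonneg (by have := harg a i; linarith)
  have hρΘ : ∀ a i, ρ a i ≤ Θ := by
    intro a i
    have h1 : 1 + π a i * (Real.exp (θ i) - 1) ≤ Real.exp Θ := by
      have h2 := Real.one_le_exp (hθ i).1
      have h3 := Real.exp_le_exp.2 (hθ i).2
      have h4 := (hπ1 a i).2
      nlinarith [(hπ1 a i).1]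
    have h2 := Real.log_le_log (by have := harg a i; linarith) h1
    rwa [Real.log_exp] at h2
  have hρb : ∀ a i, ρ a i ≤ π a i * (θ i * Real.exp Θ) := by
    intro a i
    have h1 := Real.log_le_sub_one_of_pos (show 0 < 1 + π a i * (Real.exp (θ i) - 1) by
      have := harg a i; linarith)
    have h2 := exp_sub_one_le (hθ i).1 (hθ i).2
    have h3 := mul_le_mul_of_nonneg_left h2 (hπ1 a i).1
    have : ρ a i ≤ π a i * (Real.exp (θ i) - 1) := by rw [hρ]; simp only; linarith
    linarith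
  set G : (Fin n → Bool) → ℝ := fun a => FE c A (up θ a (ρ a)) with hG
  set Gs : (Fin n → Bool) → ℝ := fun a => FE c A (up θ a (ρs a)) with hGs
  set Nb : (Fin n → Bool) → ℝ := fun a =>
    ∑ i, (if a i = false ∧ 1 / (4 * K1) < π a i then (1:ℝ) else 0) with hNb
  -- (1) the big sites cost at most Θ each
  have step1 : ∀ a, G a ≤ Gs a + Θ * Nb a := by
    intro a
    refine FE_le_add hc hc' fun k => ?_
    have h1 : ∑ i ∈ A k, up θ a (ρ a) i ≤ ∑ i ∈ A k, (up θ a (ρs a) i
        + Θ * (if a i = false ∧ 1 / (4 * K1) < π a i then (1:ℝ) else 0)) := by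
      refine Finset.sum_le_sum fun i _ => ?_
      cases h : a i
      · simp only [up, h, Bool.false_eq_true, if_false, true_and, hρs]
        by_cases hb : π a i ≤ 1 / (4 * K1)
        · rw [if_pos hb, if_neg (not_lt.2 hb)]; simp
        · rw [if_neg hb, if_pos (not_le.1 hb)]
          have := hρΘ a i
          linarith
      · simp [up, h]
    rw [Finset.sum_add_distrib, ← Finset.mul_sum] at h1
    refine le_trans h1 (add_le_add_right (mul_le_mul_of_nonneg_left ?_ hΘ.le) _)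
    exact Finset.sum_le_sum_of_subset_of_nonneg (Finset.subset_univ _) fun i _ _ => by
      split_ifs <;> norm_num
  -- (2) annealed Jensen
  set u : ℝ := Real.log (4 / c2) with hu
  have hexpu : Real.exp (-u) = c2 / 4 := by
    rw [hu, Real.exp_neg, Real.exp_log (by positivity), inv_div]
  have hπ01 : ∀ a i, 0 ≤ π a i ∧ π a i ≤ 1 := fun a i =>
    ⟨(hπ1 a i).1, le_trans (hπ1 a i).2 (by norm_num)⟩
  have hWπ : ∀ a x, 0 ≤ W a (π a) x := fun a x => W_nonneg a (hπ01 a) x
  have step2a : ∀ a, ∑ x, W a (π a) x * (if s2 ≤ FE c A (up θ x 0) then (1:ℝ) else 0)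
      ≤ (if s2 - u < G a then (1:ℝ) else 0) + c2 / 4 := by
    intro a
    split_ifs with h
    · have h1 : ∑ x, W a (π a) x * (if s2 ≤ FE c A (up θ x 0) then (1:ℝ) else 0)
          ≤ ∑ x, W a (π a) x := by
        refine Finset.sum_le_sum fun x _ => ?_
        have := hWπ a x
        split_ifs
        · rw [mul_one]
        · rw [mul_zero]; exact this
      rw [W_sum] at h1
      linarith
    · push Not at h
      have h1 : ∑ x, W a (π a) x * (if s2 ≤ FE c A (up θ x 0) then (1:ℝ) else 0)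
          ≤ ∑ x, W a (π a) x * (Real.exp (-s2) * Zf c A (up θ x 0)) := by
        refine Finset.sum_le_sum fun x _ => mul_le_mul_of_nonneg_left ?_ (hWπ a x)
        split_ifs with hx
        · rw [← exp_FE hc hc', ← Real.exp_add]
          exact Real.one_le_exp (by linarith)
        · exact mul_nonneg (Real.exp_pos _).le (Zf_pos hc hc' _).le
      have h2 : ∑ x, W a (π a) x * (Real.exp (-s2) * Zf c A (up θ x 0))
          = Real.exp (-s2) * Real.exp (G a) := by
        rw [hG]; simp only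
        rw [exp_FE hc hc', ← annealed θ (fun i => (hθ i).1) a (π a) (fun i => (hπ1 a i).1),
          Finset.mul_sum]
        refine Finset.sum_congr rfl fun x _ => by ring
      rw [h2, ← Real.exp_add] at h1
      have h3 : Real.exp (-s2 + G a) ≤ Real.exp (-u) := Real.exp_le_exp.2 (by linarith)
      rw [hexpu] at h3
      linarith
  have step2 : N * (3 * c2 / 4) ≤ ∑ a ∈ S, (if s2 - u < G a then (1:ℝ) else 0) := by
    have h1 := Finset.sum_le_sum (fun a (_ : a ∈ S) => step2a a)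
    rw [Finset.sum_add_distrib, Finset.sum_const, nsmul_eq_mul, Finset.sum_comm] at h1
    have h2 : ∑ x, ∑ a ∈ S, W a (π a) x * (if s2 ≤ FE c A (up θ x 0) then (1:ℝ) else 0)
        = N / 2 ^ n * ((univ.filter fun x : Fin n → Bool => s2 ≤ FE c A (up θ x 0)).card : ℝ) := by
      simp_rw [← Finset.sum_mul]
      simp_rw [hπ2]
      rw [← Finset.mul_sum]
      simp
    rw [h2] at h1
    have h3 : N / 2 ^ n * (c2 * 2 ^ n)
        ≤ N / 2 ^ n * ((univ.filter fun x : Fin n → Bool => s2 ≤ FE c A (up θ x 0)).card : ℝ) :=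
      mul_le_mul_of_nonneg_left hP2 (by positivity)
    have h4 : N / 2 ^ n * (c2 * 2 ^ n) = N * c2 := by field_simp
    rw [← hN] at h1
    linarith
  -- (3) few big sites
  set M : ℝ := 384 * K1 ^ 2 * L / c2 with hM
  have hM0 : 0 < M := by positivity
  have step3 : ∑ a ∈ S, (if M < Nb a then (1:ℝ) else 0) ≤ N * (c2 / 4) := by
    have h1 : M * ∑ a ∈ S, (if M < Nb a then (1:ℝ) else 0) ≤ ∑ a ∈ S, Nb a := by
      rw [Finset.mul_sum]
      refine Finset.sum_le_sum fun a _ => ?_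
      split_ifs with h
      · linarith
      · rw [mul_zero]
        exact Finset.sum_nonneg fun i _ => by split_ifs <;> norm_num
    have h2 : ∑ a ∈ S, Nb a ≤ N * (96 * K1 ^ 2 * L) :=
      le_trans hπ5 (mul_le_mul_of_nonneg_left (mul_le_mul_of_nonneg_left hlog (by positivity))
        hN0.le)
    have h3 : N * (96 * K1 ^ 2 * L) = M * (N * (c2 / 4)) := by
      rw [hM]; field_simp; ring
    rw [h3] at h2
    exact le_of_mul_le_mul_left (le_trans h1 h2) hM0
  -- (4)-(6) for a good `a`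
  have hkk : 1 ≤ K + 2 := by linarith
  have htld : ∀ a i, 0 ≤ tld K1 (π a) i ∧ tld K1 (π a) i ≤ 1 := by
    intro a i
    unfold tld
    split_ifs with h
    · refine ⟨mul_nonneg (by linarith) (hπ1 a i).1, ?_⟩
      calc K1 * π a i ≤ K1 * (1 / (4 * K1)) := mul_le_mul_of_nonneg_left h (by linarith)
        _ = 1 / 4 := by field_simp
        _ ≤ 1 := by norm_num
    · norm_num
  have step6 : ∀ a ∈ S, s2 - u < G a → Nb a ≤ M →
      3 / 4 ≤ ∑ y, W a (tld K1 (π a)) y
        * (if s2 + K * (s2 - s1) ≤ FE c A (up θ y 0) then (1:ℝ) else 0) := by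
    intro a ha h1 h2
    have h3 : s2 - u - Θ * M ≤ Gs a := by
      have h4 := step1 a
      have h5 := mul_le_mul_of_nonneg_left h2 hΘ.le
      linarith
    have h4 := convex_bump hc hc' (A := A) θ a (ρs a) hkk
    have h5 : s2 + K * (s2 - s1) + 2 * Θ ≤ FE c A (up θ a fun i => (K + 2) * ρs a i) := by
      have h6 := (hmemS a).1 ha
      have h7 := mul_le_mul_of_nonneg_left h3 (show 0 ≤ K + 2 by linarith)
      have h8 := mul_le_mul_of_nonneg_left h6 (show 0 ≤ K + 2 - 1 by linarith)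
      have h9 : (K + 2) * FE c A (up θ a (ρs a)) = (K + 2) * Gs a := rfl
      rw [h9] at h4
      nlinarith
    refine back hΘ hc hc' θ hθ a (tld K1 (π a)) _ (htld a) (fun i => ?_) _ h5
    simp only [hρs, tld]
    split_ifs with h
    · have h6 := hρb a i
      have h7 := mul_le_mul_of_nonneg_left h6 (show 0 ≤ K + 2 by linarith)
      have h8 : (K + 2) * (π a i * (θ i * Real.exp Θ)) = K1 * π a i * θ i / 2 := by
        rw [hK1d]; ring
      linarith
    · simp
  -- (7) entropy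
  set Γ : Finset (Fin n → Bool) := univ.filter fun y => s2 + K * (s2 - s1) ≤ FE c A (up θ y 0)
    with hΓ
  set τ : ℝ := 8 / (3 * c2) * (6 * K1 ^ 2 * L + Real.log 2) with hτ
  have hlog2 : 0 < Real.log 2 := Real.log_pos (by norm_num)
  have hτ0 : 0 < τ := by positivity
  have step7 : τ * (3 / 4) * (N * (c2 / 2))
      ≤ ∑ a ∈ S, ∑ y, W a (tld K1 (π a)) y
        * (τ * (if s2 + K * (s2 - s1) ≤ FE c A (up θ y 0) then (1:ℝ) else 0)) := by
    have h1 : ∀ a ∈ S, τ * (3 / 4) * ((if s2 - u < G a then (1:ℝ) else 0)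
        - (if M < Nb a then (1:ℝ) else 0))
        ≤ ∑ y, W a (tld K1 (π a)) y
        * (τ * (if s2 + K * (s2 - s1) ≤ FE c A (up θ y 0) then (1:ℝ) else 0)) := by
      intro a ha
      have h2 : ∑ y, W a (tld K1 (π a)) y
        * (τ * (if s2 + K * (s2 - s1) ≤ FE c A (up θ y 0) then (1:ℝ) else 0))
        = τ * ∑ y, W a (tld K1 (π a)) y
        * (if s2 + K * (s2 - s1) ≤ FE c A (up θ y 0) then (1:ℝ) else 0) := by
        rw [Finset.mul_sum]
        refine Finset.sum_congr rfl fun y _ => by ring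
      have h3 : 0 ≤ ∑ y, W a (tld K1 (π a)) y
        * (if s2 + K * (s2 - s1) ≤ FE c A (up θ y 0) then (1:ℝ) else 0) := by
        refine Finset.sum_nonneg fun y _ => mul_nonneg (W_nonneg a (htld a) y) ?_
        split_ifs <;> norm_num
      rw [h2, mul_assoc]
      refine mul_le_mul_of_nonneg_left ?_ hτ0.le
      split_ifs with h4 h5 h5
      · linarith
      · have := step6 a ha h4 (not_lt.1 h5)
        linarith
      · linarith
      · linarith
    have h2 := Finset.sum_le_sum h1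
    rw [← Finset.mul_sum, Finset.sum_sub_distrib] at h2
    refine le_trans (mul_le_mul_of_nonneg_left ?_ (by positivity)) h2
    linarith
  have h8 := le_trans step7 (hπ4 fun y =>
    τ * (if s2 + K * (s2 - s1) ≤ FE c A (up θ y 0) then (1:ℝ) else 0))
  have hsumexp : (∑ y : Fin n → Bool, Real.exp
      (τ * (if s2 + K * (s2 - s1) ≤ FE c A (up θ y 0) then (1:ℝ) else 0))) / 2 ^ n
      ≤ 1 + Γ.card / 2 ^ n * Real.exp τ := by
    have h1 : ∑ y : Fin n → Bool, Real.exp
      (τ * (if s2 + K * (s2 - s1) ≤ FE c A (up θ y 0) then (1:ℝ) else 0))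
      ≤ ∑ y : Fin n → Bool, (1 + (if s2 + K * (s2 - s1) ≤ FE c A (up θ y 0) then Real.exp τ else 0)) := by
      refine Finset.sum_le_sum fun y _ => ?_
      split_ifs
      · rw [mul_one]; linarith
      · simp
    rw [Finset.sum_add_distrib, ← Finset.sum_filter, Finset.sum_const, Finset.sum_const,
      nsmul_eq_mul, nsmul_eq_mul, ← hΓ] at h1
    have h2 : ((univ : Finset (Fin n → Bool)).card : ℝ) = 2 ^ n := by simp
    rw [h2, mul_one] at h1
    have h3 := div_le_div_of_nonneg_right h1 h2n.le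
    refine le_trans h3 (le_of_eq ?_)
    field_simp
  have hsumpos : 0 < (∑ y : Fin n → Bool, Real.exp
      (τ * (if s2 + K * (s2 - s1) ≤ FE c A (up θ y 0) then (1:ℝ) else 0))) / 2 ^ n := by
    refine div_pos (Finset.sum_pos (fun _ _ => Real.exp_pos _) Finset.univ_nonempty) h2n
  have h9 := Real.log_le_log hsumpos hsumexp
  have h10 : τ * (3 / 4) * (c2 / 2) ≤ 6 * K1 ^ 2 * L
      + Real.log (1 + Γ.card / 2 ^ n * Real.exp τ) := by
    have h11 : N * (τ * (3 / 4) * (c2 / 2)) ≤ N * (6 * K1 ^ 2 * L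
      + Real.log (1 + Γ.card / 2 ^ n * Real.exp τ)) := by
      have h12 : N * (τ * (3 / 4) * (c2 / 2)) = τ * (3 / 4) * (N * (c2 / 2)) := by ring
      rw [h12]
      refine le_trans h8 (mul_le_mul_of_nonneg_left (add_le_add ?_ h9) hN0.le)
      exact mul_le_mul_of_nonneg_left hlog (by positivity)
    exact le_of_mul_le_mul_left h11 hN0
  have h11 : τ * (3 / 4) * (c2 / 2) = 6 * K1 ^ 2 * L + Real.log 2 := by
    rw [hτ]; field_simp; ring
  have h12 : Real.log 2 ≤ Real.log (1 + Γ.card / 2 ^ n * Real.exp τ) := by linarith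
  have h13 : (2:ℝ) ≤ 1 + Γ.card / 2 ^ n * Real.exp τ :=
    (Real.log_le_log_iff (by norm_num) (by positivity)).1 h12
  have h14 : Real.exp (-τ) * 2 ^ n ≤ Γ.card := by
    have h15 : 1 * (2 ^ n * Real.exp (-τ)) ≤ (Γ.card / 2 ^ n * Real.exp τ) * (2 ^ n * Real.exp (-τ)) :=
      mul_le_mul_of_nonneg_right (by linarith) (by positivity)
    have h16 : (Γ.card / 2 ^ n * Real.exp τ) * (2 ^ n * Real.exp (-τ)) = Γ.card := by
      have : Real.exp τ * Real.exp (-τ) = 1 := by rw [← Real.exp_add]; simp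
      calc (Γ.card / 2 ^ n * Real.exp τ) * (2 ^ n * Real.exp (-τ))
          = Γ.card * (Real.exp τ * Real.exp (-τ)) := by field_simp
        _ = _ := by rw [this, mul_one]
    rw [h16] at h15
    linarith
  exact h14

/-- MAIN THEOREM (row 616, fair coins): anti-steepness at constant probability. -/
theorem cube_antisteep (Θ K c1 c2 : ℝ) (hΘ : 0 < Θ) (hK : 1 ≤ K) (hc1 : 0 < c1) (hc2 : 0 < c2) :
    ∃ p : ℝ, 0 < p ∧ ∃ C : ℝ, ∀ (n : ℕ) (κ : Type) [Fintype κ] (c : κ → ℝ)
      (A : κ → Finset (Fin n)) (θ : Fin n → ℝ) (s1 s2 : ℝ),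
      (∀ k, 0 ≤ c k) → (∃ k, 0 < c k) → (∀ i, 0 ≤ θ i ∧ θ i ≤ Θ) → C ≤ s2 - s1 →
      c1 * 2 ^ n ≤ ((univ.filter fun x : Fin n → Bool => FE c A (up θ x 0) ≤ s1).card : ℝ) →
      c2 * 2 ^ n ≤ ((univ.filter fun x : Fin n → Bool => s2 ≤ FE c A (up θ x 0)).card : ℝ) →
      p * 2 ^ n ≤ ((univ.filter fun x : Fin n → Bool =>
        s2 + K * (s2 - s1) ≤ FE c A (up θ x 0)).card : ℝ) :=
  ⟨_, Real.exp_pos _, _, fun n κ _ c A θ s1 s2 hc hc' hθ hD h1 h2 =>
    cube_antisteep_explicit hΘ hK hc1 hc2 rfl rfl n κ c A θ s1 s2 hc hc' hθ hD h1 h2⟩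

end Pool.Agent.W7d29a1Cube36
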