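import Pool.Agent.W_7d29a1_t2.RedF
import Pool.Agent.W_7d29a1_h4g.LawLA

/-!
MP_7d29a1_pr, rows 616 and 617: anti-steepness at constant probability for the law of the environment and sums of
path weights (`Poly` of helper4). (helper84)
-/

namespace Pool.Agent.W_7d29a1_t2

open MeasureTheory Set
open Pool.Agent.W7d29a1T2 (FE up)
open Pool.Agent.W_7d29a1_h47 (EM Nondeg exists_gap)
open Pool.Agent.W_7d29a1_F (Pt Env law)
open Pool.Agent.W_7d29a1_h4g (Poly map_sites)

noncomputable section

/-- A sum of path weights is the exponential of a free energy of finitely many independent sites. -/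
theorem poly_FE {μ : Measure ℝ} [IsProbabilityMeasure μ] {S : Set Pt} {G : Env → ℝ} (hP : Poly S G)
    (hG : ∀ η, 0 < G η) : ∃ (n N : ℕ) (c : Fin N → ℝ) (A : Fin N → Finset (Fin n)) (r : Env → (Fin n → ℝ)),
      Measurable r ∧ (law μ).map r = Measure.pi (fun _ => μ) ∧ (∀ k, 0 ≤ c k) ∧ (∃ k, 0 < c k) ∧
      ∀ η, Real.log (G η) = FE c A (r η) := by
  classical
  obtain ⟨N, a, A, h1, h2, h3⟩ := hP
  obtain ⟨T, hT⟩ : ∃ T : Finset Pt, T = Finset.univ.biUnion A := ⟨_, rfl⟩
  have hAT : ∀ i, A i ⊆ T := fun i => by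
    rw [hT]
    exact Finset.subset_biUnion_of_mem A (Finset.mem_univ i)
  obtain ⟨e⟩ : Nonempty (Fin (Fintype.card T) ≃ T) := ⟨(Fintype.equivFin T).symm⟩
  obtain ⟨x, hxdef⟩ : ∃ x : Fin (Fintype.card T) → Pt, x = fun i => ((e i : T) : Pt) := ⟨_, rfl⟩
  have hx : Function.Injective x := by
    intro i j hij
    rw [hxdef] at hij
    exact e.injective (Subtype.ext hij)
  refine ⟨Fintype.card T, N, a, fun k => Finset.univ.filter fun i => x i ∈ A k, fun η i => η (x i),
    measurable_pi_lambda _ fun i => measurable_pi_apply _, map_sites μ x hx, h1, ?_, fun η => ?_⟩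
  · by_contra hcon
    push Not at hcon
    have := hG 0
    rw [h3] at this
    refine this.not_ge (Finset.sum_nonpos fun i _ => ?_)
    exact mul_nonpos_of_nonpos_of_nonneg (hcon i) (Real.exp_pos _).le
  · rw [h3]
    unfold FE
    congr 1
    apply Finset.sum_congr rfl
    intro k _
    congr 2
    symm
    apply Finset.sum_nbij x
    · intro i hi
      exact (Finset.mem_filter.1 hi).2
    · intro i _ j _ hij
      exact hx hij
    · intro p hp
      have hpT : p ∈ T := hAT k hp
      refine ⟨e.symm ⟨p, hpT⟩, ?_, ?_⟩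
      · rw [Finset.mem_coe, Finset.mem_filter]
        refine ⟨Finset.mem_univ _, ?_⟩
        rw [hxdef]
        simpa using hp
      · rw [hxdef]
        simp
    · intro i _
      rfl

/-- ANTI-STEEPNESS AT CONSTANT PROBABILITY on the law of the environment, for sums of path weights: if the free
energy `log G` is `≤ s1` with probability `≥ c1` and `≥ s2` with probability `≥ c2` and `s2 - s1 ≥ C`, then it is
`≥ s2 + K (s2 - s1)` with probability `≥ p`; `p` and `C` depend on `μ, K, c1, c2` only. -/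
theorem antisteep_law (hcube : CubeAS) {μ : Measure ℝ} [IsProbabilityMeasure μ] (hμ : EM μ)
    (hnd : Nondeg μ) {K c1 c2 : ℝ} (hK : 1 ≤ K) (hc1 : 0 < c1) (hc2 : 0 < c2) :
    ∃ p : ℝ, 0 < p ∧ ∃ C : ℝ, ∀ (S : Set Pt) (G : Env → ℝ) (s1 s2 : ℝ), Poly S G → (∀ η, 0 < G η) →
      C ≤ s2 - s1 → c1 ≤ (law μ).real {η | Real.log (G η) ≤ s1} →
      c2 ≤ (law μ).real {η | s2 ≤ Real.log (G η)} →
      p ≤ (law μ).real {η | s2 + K * (s2 - s1) ≤ Real.log (G η)} := by
  obtain ⟨p, hp, C, hC⟩ := antisteep_of_cube hcube hμ hnd hK hc1 hc2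
  refine ⟨p, hp, C, fun S G s1 s2 hP hG hD h1 h2 => ?_⟩
  obtain ⟨n, N, c, A, r, hr, hmap, hc, hc', he⟩ := poly_FE (μ := μ) hP hG
  have hm : Measurable (FE c A) := measurable_FE c A
  have tr : ∀ B : Set ℝ, MeasurableSet B → (law μ).real {η | Real.log (G η) ∈ B} =
      (Measure.pi fun _ : Fin n => μ).real {x | FE c A x ∈ B} := by
    intro B hB
    have hB' : MeasurableSet {x | FE c A x ∈ B} := hm hB
    rw [← hmap, measureReal_def, measureReal_def, Measure.map_apply hr hB']
    congr 2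
    ext η
    show Real.log (G η) ∈ B ↔ FE c A (r η) ∈ B
    rw [he]
  have t1 := tr (Iic s1) measurableSet_Iic
  have t2 := tr (Ici s2) measurableSet_Ici
  have t3 := tr (Ici (s2 + K * (s2 - s1))) measurableSet_Ici
  have key := hC n (Fin N) c A s1 s2 hc hc' hD (le_of_le_of_eq h1 t1) (le_of_le_of_eq h2 t2)
  exact le_of_le_of_eq key t3.symm

end

end Pool.Agent.W_7d29a1_t2
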