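import Pool.Agent.W_7d29a1_t2.RedG
import Pool.Agent.W_7d29a1_t2.Cube36

/-!
MP_7d29a1_pr, rows 616 and 617 of the table `proofs`: ANTI-STEEPNESS AT CONSTANT PROBABILITY for all laws with
exponential moments, final statements (coins: helper36, reduction: helper84).
-/

namespace Pool.Agent.W_7d29a1_t2

open MeasureTheory Set
open Pool.Agent.W7d29a1T2 (FE up)
open Pool.Agent.W_7d29a1_h47 (EM Nondeg)
open Pool.Agent.W_7d29a1_F (Pt Env law)
open Pool.Agent.W_7d29a1_h4g (Poly)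

theorem cubeAS : CubeAS := by
  intro Θ K c1 c2 hΘ hK hc1 hc2
  exact Pool.Agent.W7d29a1Cube36.cube_antisteep Θ K c1 c2 hΘ hK hc1 hc2

/-- Anti-steepness, finitely many independent sites. -/
theorem antisteep_pi {μ : Measure ℝ} [IsProbabilityMeasure μ] (hμ : EM μ) (hnd : Nondeg μ) {K c1 c2 : ℝ}
    (hK : 1 ≤ K) (hc1 : 0 < c1) (hc2 : 0 < c2) :
    ∃ p : ℝ, 0 < p ∧ ∃ C : ℝ, ∀ (n : ℕ) (κ : Type) [Fintype κ] (c : κ → ℝ) (A : κ → Finset (Fin n)) (s1 s2 : ℝ),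
      (∀ k, 0 ≤ c k) → (∃ k, 0 < c k) → C ≤ s2 - s1 →
      c1 ≤ (Measure.pi fun _ : Fin n => μ).real {x | FE c A x ≤ s1} →
      c2 ≤ (Measure.pi fun _ : Fin n => μ).real {x | s2 ≤ FE c A x} →
      p ≤ (Measure.pi fun _ : Fin n => μ).real {x | s2 + K * (s2 - s1) ≤ FE c A x} :=
  antisteep_of_cube cubeAS hμ hnd hK hc1 hc2

/-- Anti-steepness on the law of the environment, for the logarithm of a sum of path weights. -/
theorem antisteep {μ : Measure ℝ} [IsProbabilityMeasure μ] (hμ : EM μ) (hnd : Nondeg μ) {K c1 c2 : ℝ}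
    (hK : 1 ≤ K) (hc1 : 0 < c1) (hc2 : 0 < c2) :
    ∃ p : ℝ, 0 < p ∧ ∃ C : ℝ, ∀ (S : Set Pt) (G : Env → ℝ) (s1 s2 : ℝ), Poly S G → (∀ η, 0 < G η) →
      C ≤ s2 - s1 → c1 ≤ (law μ).real {η | Real.log (G η) ≤ s1} →
      c2 ≤ (law μ).real {η | s2 ≤ Real.log (G η)} →
      p ≤ (law μ).real {η | s2 + K * (s2 - s1) ≤ Real.log (G η)} :=
  antisteep_law cubeAS hμ hnd hK hc1 hc2

end Pool.Agent.W_7d29a1_t2

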