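import Pool.Agent.W_7d29a1_t2.RedB

/-!
MP_7d29a1_pr, rows 616 and 617: reduction of general laws to fair coins.
Part C: product measures on `Fin n → α` and averages over the coins. (helper84)
-/

namespace Pool.Agent.W_7d29a1_t2

open MeasureTheory Set

noncomputable section

/-- The environment given by the values `z` and the coins `ε`. -/
def sel {n : ℕ} (z : Fin n → ℝ × ℝ) (ε : Fin n → Bool) : Fin n → ℝ :=
  fun i => if ε i then (z i).2 else (z i).1

/-- The average over the coins. -/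
def av {n : ℕ} (Φ : (Fin n → ℝ) → ℝ) (z : Fin n → ℝ × ℝ) : ℝ :=
  (∑ ε : Fin n → Bool, Φ (sel z ε)) / 2 ^ n

lemma sel_cons {n : ℕ} (w : ℝ × ℝ) (z : Fin n → ℝ × ℝ) (e : Bool) (ε : Fin n → Bool) :
    sel (Fin.cons w z : Fin (n + 1) → ℝ × ℝ) (Fin.cons e ε : Fin (n + 1) → Bool) =
      (Fin.cons (if e then w.2 else w.1) (sel z ε) : Fin (n + 1) → ℝ) := by
  funext i
  refine Fin.cases ?_ (fun j => ?_) i
  · simp [sel]
  · simp [sel]

lemma av_cons {n : ℕ} (Φ : (Fin (n + 1) → ℝ) → ℝ) (w : ℝ × ℝ) (z : Fin n → ℝ × ℝ) :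
    av Φ (Fin.cons w z : Fin (n + 1) → ℝ × ℝ) =
      (av (fun y => Φ (Fin.cons w.1 y : Fin (n + 1) → ℝ)) z +
        av (fun y => Φ (Fin.cons w.2 y : Fin (n + 1) → ℝ)) z) / 2 := by
  unfold av
  rw [← (Fin.consEquiv fun _ : Fin (n + 1) => Bool).sum_comp]
  rw [Fintype.sum_prod_type, Fintype.sum_bool]
  have h : ∀ (e : Bool) (ε : Fin n → Bool), Φ (sel (Fin.cons w z : Fin (n + 1) → ℝ × ℝ)
      ((Fin.consEquiv fun _ : Fin (n + 1) => Bool) (e, ε))) =
      Φ (Fin.cons (if e then w.2 else w.1) (sel z ε) : Fin (n + 1) → ℝ) := by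
    intro e ε
    rw [← sel_cons]
    rfl
  simp only [h, if_true, Bool.false_eq_true, if_false]
  rw [pow_succ]
  ring

section meas

variable {α : Type*} [MeasurableSpace α]

lemma measurable_cons {n : ℕ} : Measurable fun p : α × (Fin n → α) => (Fin.cons p.1 p.2 : Fin (n + 1) → α) := by
  rw [measurable_pi_iff]
  intro i
  refine Fin.cases ?_ (fun j => ?_) i
  · simp only [Fin.cons_zero]
    exact measurable_fst
  · simp only [Fin.cons_succ]
    exact (measurable_pi_apply j).comp measurable_snd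

lemma mp_cons (ν : Measure α) [IsProbabilityMeasure ν] (n : ℕ) :
    MeasurePreserving (fun p : α × (Fin n → α) => (Fin.cons p.1 p.2 : Fin (n + 1) → α))
      (ν.prod (Measure.pi fun _ : Fin n => ν)) (Measure.pi fun _ : Fin (n + 1) => ν) := by
  have h := (measurePreserving_piFinSuccAbove (fun _ : Fin (n + 1) => ν) 0).symm
  have e : (fun p : α × (Fin n → α) => (Fin.cons p.1 p.2 : Fin (n + 1) → α)) =
      (MeasurableEquiv.piFinSuccAbove (fun _ : Fin (n + 1) => α) 0).symm := by
    funext p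
    have h2 : (MeasurableEquiv.piFinSuccAbove (fun _ : Fin (n + 1) => α) 0).symm p =
        Fin.insertNth (α := fun _ => α) 0 p.1 p.2 := rfl
    rw [h2, Fin.insertNth_zero']
  rw [e]
  exact h

lemma bdd_int {β : Type*} [MeasurableSpace β] {ρ : Measure β} [IsProbabilityMeasure ρ] {f : β → ℝ} {C : ℝ}
    (hf : Measurable f) (hb : ∀ x, |f x| ≤ C) : Integrable f ρ :=
  (integrable_const C).mono' hf.aestronglyMeasurable (Filter.Eventually.of_forall fun x => by
    rw [Real.norm_eq_abs]
    exact hb x)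

lemma integral_cons (ν : Measure α) [IsProbabilityMeasure ν] {n : ℕ} {f : (Fin (n + 1) → α) → ℝ} {C : ℝ}
    (hf : Measurable f) (hb : ∀ x, |f x| ≤ C) :
    ∫ x, f x ∂(Measure.pi fun _ : Fin (n + 1) => ν) =
      ∫ t, ∫ y, f (Fin.cons t y : Fin (n + 1) → α) ∂(Measure.pi fun _ : Fin n => ν) ∂ν := by
  rw [← (mp_cons ν n).map_eq, integral_map (measurable_cons).aemeasurable hf.aestronglyMeasurable]
  exact integral_prod _ (bdd_int (hf.comp measurable_cons) fun x => hb _)

lemma measurable_inner (ν : Measure α) [IsProbabilityMeasure ν] {n : ℕ} {f : (Fin (n + 1) → α) → ℝ}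
    (hf : Measurable f) :
    Measurable fun t => ∫ y, f (Fin.cons t y : Fin (n + 1) → α) ∂(Measure.pi fun _ : Fin n => ν) := by
  have h : StronglyMeasurable (Function.uncurry fun (t : α) (y : Fin n → α) =>
      f (Fin.cons t y : Fin (n + 1) → α)) := (hf.comp measurable_cons).stronglyMeasurable
  exact h.integral_prod_right.measurable

lemma abs_inner_le (ν : Measure α) [IsProbabilityMeasure ν] {n : ℕ} {f : (Fin (n + 1) → α) → ℝ} {C : ℝ}
    (hb : ∀ x, |f x| ≤ C) (t : α) :
    |∫ y, f (Fin.cons t y : Fin (n + 1) → α) ∂(Measure.pi fun _ : Fin n => ν)| ≤ C := by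
  have h := norm_integral_le_of_norm_le_const (μ := Measure.pi fun _ : Fin n => ν)
    (f := fun y => f (Fin.cons t y : Fin (n + 1) → α)) (C := C)
    (Filter.Eventually.of_forall fun y => by rw [Real.norm_eq_abs]; exact hb _)
  simpa using h

end meas

lemma measurable_sel {n : ℕ} (ε : Fin n → Bool) : Measurable fun z : Fin n → ℝ × ℝ => sel z ε := by
  rw [measurable_pi_iff]
  intro i
  unfold sel
  cases h : ε i
  · simp only [Bool.false_eq_true, if_false]
    exact measurable_fst.comp (measurable_pi_apply i)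
  · simp only [if_true]
    exact measurable_snd.comp (measurable_pi_apply i)

lemma measurable_av {n : ℕ} {Φ : (Fin n → ℝ) → ℝ} (hΦ : Measurable Φ) : Measurable (av Φ) := by
  unfold av
  exact (Finset.measurable_sum _ fun ε _ => hΦ.comp (measurable_sel ε)).div_const _

lemma abs_av_le {n : ℕ} {Φ : (Fin n → ℝ) → ℝ} {C : ℝ} (hb : ∀ x, |Φ x| ≤ C) (z : Fin n → ℝ × ℝ) :
    |av Φ z| ≤ C := by
  unfold av
  rw [abs_div, abs_of_pos (by positivity : (0 : ℝ) < 2 ^ n), div_le_iff₀ (by positivity)]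
  refine (Finset.abs_sum_le_sum_abs _ _).trans ((Finset.sum_le_sum fun ε _ => hb _).trans ?_)
  simp [mul_comm]

variable {μ : Measure ℝ} [IsProbabilityMeasure μ] {xm xp M : ℝ}

/-- The coins reproduce the product law. -/
theorem integral_av : ∀ (n : ℕ) {Φ : (Fin n → ℝ) → ℝ} {C : ℝ}, Measurable Φ → (∀ x, |Φ x| ≤ C) →
    ∫ z, av Φ z ∂(Measure.pi fun _ : Fin n => lam μ xm xp M) = ∫ x, Φ x ∂(Measure.pi fun _ : Fin n => μ) := by
  intro n
  induction n with
  | zero =>
    intro Φ C hΦ hb
    have h1 : ∀ z, av Φ z = Φ default := by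
      intro z
      unfold av
      rw [Fintype.sum_eq_single default fun b hb => absurd (Subsingleton.elim b default) hb]
      simp only [pow_zero, div_one]
      congr 1
      exact Subsingleton.elim _ _
    have h2 : ∀ x, Φ x = Φ default := fun x => by
      congr 1
      exact Subsingleton.elim _ _
    simp_rw [h1]
    rw [integral_congr_ae (Filter.Eventually.of_forall h2)]
    simp
  | succ n ih =>
    intro Φ C hΦ hb
    rw [integral_cons _ (measurable_av hΦ) (abs_av_le hb), integral_cons _ hΦ hb]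
    have hm : ∀ t, Measurable fun y : Fin n → ℝ => Φ (Fin.cons t y : Fin (n + 1) → ℝ) := fun t =>
      hΦ.comp (measurable_cons.comp measurable_prodMk_left)
    have h1 : ∀ w : ℝ × ℝ, ∫ z, av Φ (Fin.cons w z : Fin (n + 1) → ℝ × ℝ)
        ∂(Measure.pi fun _ : Fin n => lam μ xm xp M) =
        (∫ y, Φ (Fin.cons w.1 y : Fin (n + 1) → ℝ) ∂(Measure.pi fun _ : Fin n => μ) +
          ∫ y, Φ (Fin.cons w.2 y : Fin (n + 1) → ℝ) ∂(Measure.pi fun _ : Fin n => μ)) / 2 := by
      intro w
      simp_rw [av_cons]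
      rw [integral_div, integral_add (bdd_int (measurable_av (hm _)) (abs_av_le fun x => hb _))
        (bdd_int (measurable_av (hm _)) (abs_av_le fun x => hb _)), ih (hm _) fun x => hb _,
        ih (hm _) fun x => hb _]
    simp_rw [h1]
    exact integral_lam (f := fun t => ∫ y, Φ (Fin.cons t y : Fin (n + 1) → ℝ)
      ∂(Measure.pi fun _ : Fin n => μ)) (measurable_inner _ hΦ)
      (bdd_int (measurable_inner _ hΦ) (abs_inner_le _ hb))

end

end Pool.Agent.W_7d29a1_t2
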