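import Mathlib

/-!
MP_7d29a1_pr, rows 616 and 617 of the table `proofs`: reduction of general laws to fair coins.
Part A: the one coordinate estimate (R) for the smooth indicator of the free energy. (helper84)
-/

namespace Pool.Agent.W_7d29a1_t2

noncomputable section

/-- The logistic function. -/
def lg (y : ℝ) : ℝ := 1 / (1 + Real.exp (-y))

/-- Its derivative. -/
def lg' (y : ℝ) : ℝ := Real.exp (-y) / (1 + Real.exp (-y)) ^ 2

lemma lg_pos (y : ℝ) : 0 < lg y := by
  unfold lg
  have := Real.exp_pos (-y)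
  positivity

lemma lg_lt_one (y : ℝ) : lg y < 1 := by
  unfold lg
  have := Real.exp_pos (-y)
  rw [div_lt_one (by positivity)]
  linarith

lemma lg'_nonneg (y : ℝ) : 0 ≤ lg' y := by
  unfold lg'
  have := Real.exp_pos (-y)
  positivity

lemma lg_mono : Monotone lg := by
  intro x y h
  unfold lg
  have h1 := Real.exp_pos (-y)
  have h2 : Real.exp (-y) ≤ Real.exp (-x) := Real.exp_le_exp.2 (by linarith)
  exact one_div_le_one_div_of_le (by positivity) (by linarith)

lemma lg_add (y r : ℝ) : lg (y + r) - lg y =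
    Real.exp (-y) * (1 - Real.exp (-r)) / ((1 + Real.exp (-y)) * (1 + Real.exp (-y) * Real.exp (-r))) := by
  unfold lg
  have h1 := Real.exp_pos (-y)
  have h2 := Real.exp_pos (-r)
  have h3 : Real.exp (-(y + r)) = Real.exp (-y) * Real.exp (-r) := by
    rw [← Real.exp_add]
    congr 1
    ring
  rw [h3]
  have h4 : 0 < 1 + Real.exp (-y) * Real.exp (-r) := by positivity
  have h5 : 0 < 1 + Real.exp (-y) := by positivity
  field_simp
  ring

/-- Upper bound for the increments of the logistic function. -/
lemma lg_abs_le (y r : ℝ) : |lg (y + r) - lg y| ≤ (Real.exp |r| - 1) * lg' y := by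
  rw [lg_add]
  unfold lg'
  have h1 := Real.exp_pos (-y)
  have h2 := Real.exp_pos (-r)
  have h4 : 0 < 1 + Real.exp (-y) * Real.exp (-r) := by positivity
  have h5 : 0 < 1 + Real.exp (-y) := by positivity
  rcases le_total 0 r with hr | hr
  · rw [abs_of_nonneg hr]
    have h6 : Real.exp (-r) ≤ 1 := Real.exp_le_one_iff.2 (by linarith)
    rw [abs_of_nonneg (by
      apply div_nonneg (mul_nonneg h1.le (by linarith)) (by positivity))]
    rw [div_le_iff₀ (by positivity)]
    have h7 : Real.exp r * Real.exp (-r) = 1 := by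
      rw [← Real.exp_add]
      simp
    have h8 := Real.exp_pos r
    have h9 : (Real.exp r - 1) * (Real.exp (-y) / (1 + Real.exp (-y)) ^ 2) *
        ((1 + Real.exp (-y)) * (1 + Real.exp (-y) * Real.exp (-r))) =
        Real.exp (-y) * ((Real.exp r - 1) * (1 + Real.exp (-y) * Real.exp (-r)) / (1 + Real.exp (-y))) := by
      field_simp
    rw [h9]
    apply mul_le_mul_of_nonneg_left _ h1.le
    rw [le_div_iff₀ h5]
    have h10 : 1 ≤ Real.exp r := Real.one_le_exp hr
    nlinarith [mul_nonneg h1.le (sub_nonneg.2 h6), mul_nonneg h1.le (sub_nonneg.2 h10)]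
  · rw [abs_of_nonpos hr]
    have h6 : 1 ≤ Real.exp (-r) := Real.one_le_exp (by linarith)
    rw [abs_of_nonpos (by
      apply div_nonpos_of_nonpos_of_nonneg (mul_nonpos_of_nonneg_of_nonpos h1.le (by linarith))
        (by positivity))]
    rw [← neg_div, div_le_iff₀ (by positivity)]
    have h9 : (Real.exp (-r) - 1) * (Real.exp (-y) / (1 + Real.exp (-y)) ^ 2) *
        ((1 + Real.exp (-y)) * (1 + Real.exp (-y) * Real.exp (-r))) =
        Real.exp (-y) * ((Real.exp (-r) - 1) * ((1 + Real.exp (-y) * Real.exp (-r)) / (1 + Real.exp (-y)))) := by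
      field_simp
    rw [h9]
    have h11 : -(Real.exp (-y) * (1 - Real.exp (-r))) = Real.exp (-y) * ((Real.exp (-r) - 1) * 1) := by ring
    rw [h11]
    apply mul_le_mul_of_nonneg_left _ h1.le
    apply mul_le_mul_of_nonneg_left _ (by linarith)
    rw [le_div_iff₀ h5]
    nlinarith [mul_nonneg h1.le (sub_nonneg.2 h6)]

/-- Lower bound for the increments of the logistic function. -/
lemma le_lg_sub (y : ℝ) {r : ℝ} (hr : 0 ≤ r) : (1 - Real.exp (-r)) * lg' y ≤ lg (y + r) - lg y := by
  rw [lg_add]
  unfold lg'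
  have h1 := Real.exp_pos (-y)
  have h2 := Real.exp_pos (-r)
  have h4 : 0 < 1 + Real.exp (-y) * Real.exp (-r) := by positivity
  have h5 : 0 < 1 + Real.exp (-y) := by positivity
  have h6 : Real.exp (-r) ≤ 1 := Real.exp_le_one_iff.2 (by linarith)
  rw [le_div_iff₀ (by positivity)]
  have h9 : (1 - Real.exp (-r)) * (Real.exp (-y) / (1 + Real.exp (-y)) ^ 2) *
      ((1 + Real.exp (-y)) * (1 + Real.exp (-y) * Real.exp (-r))) =
      Real.exp (-y) * ((1 - Real.exp (-r)) * ((1 + Real.exp (-y) * Real.exp (-r)) / (1 + Real.exp (-y)))) := by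
    field_simp
  rw [h9]
  apply mul_le_mul_of_nonneg_left _ h1.le
  have h10 : (1 - Real.exp (-r)) * ((1 + Real.exp (-y) * Real.exp (-r)) / (1 + Real.exp (-y))) ≤
      (1 - Real.exp (-r)) * 1 := by
    apply mul_le_mul_of_nonneg_left _ (by linarith)
    rw [div_le_one h5]
    nlinarith
  linarith

/-- The one coordinate estimate. `a + b e^t` is the partition function as a function of one weight. -/
theorem one_coord {a b xm xp D m : ℝ} (ha : 0 ≤ a) (hb : 0 ≤ b) (hab : 0 < a + b) (hx : xm < xp)
    (hD : 1 ≤ D) (t : ℝ) :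
    |lg ((Real.log (a + b * Real.exp t) - m) / D) - lg ((Real.log (a + b * Real.exp xm) - m) / D)| ≤
      Real.exp (xp - xm) / (xp - xm) * Real.exp (2 * |t - xm|) *
        (lg ((Real.log (a + b * Real.exp xp) - m) / D) - lg ((Real.log (a + b * Real.exp xm) - m) / D)) := by
  have hD0 : 0 < D := by linarith
  have hpos : ∀ s : ℝ, 0 < a + b * Real.exp s := by
    intro s
    rcases eq_or_lt_of_le hb with h | h
    · rw [← h] at hab ⊢
      simpa using hab
    · have := Real.exp_pos s
      have : 0 < b * Real.exp s := mul_pos h this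
      linarith
  set Z0 := a + b * Real.exp xm with hZ0
  have hZ0p : 0 < Z0 := hpos xm
  set P := b * Real.exp xm / Z0 with hP
  have hP0 : 0 ≤ P := by positivity
  have hP1 : P ≤ 1 := by
    rw [hP, div_le_one hZ0p, hZ0]
    linarith
  -- increments
  have hl : ∀ s : ℝ, Real.log (a + b * Real.exp s) - Real.log Z0 = Real.log (1 + P * (Real.exp (s - xm) - 1)) := by
    intro s
    rw [← Real.log_div (hpos s).ne' hZ0p.ne']
    congr 1
    rw [hP, Real.exp_sub]
    have := Real.exp_pos xm
    field_simp
    rw [hZ0]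
    ring
  have harg : ∀ s : ℝ, 0 < 1 + P * (Real.exp (s - xm) - 1) := by
    intro s
    have h1 := Real.exp_pos (s - xm)
    rcases eq_or_lt_of_le hP1 with h | h
    · rw [h]
      linarith
    · nlinarith
  set τ := |t - xm| with hτ
  have hτ0 : 0 ≤ τ := abs_nonneg _
  set L := Real.log (1 + P * (Real.exp (t - xm) - 1)) with hL
  -- upper bound for |L|
  have hLτ : |L| ≤ Real.log (1 + P * (Real.exp τ - 1)) := by
    have hE : 0 ≤ Real.exp τ - 1 := by linarith [Real.one_le_exp hτ0]
    rcases le_total xm t with h | h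
    · have h1 : τ = t - xm := by rw [hτ, abs_of_nonneg (by linarith)]
      rw [← h1] at hL
      rw [hL, abs_of_nonneg]
      apply Real.log_nonneg
      nlinarith
    · have h1 : t - xm = -τ := by rw [hτ, abs_of_nonpos (by linarith)]; ring
      rw [h1] at hL
      have h2 : L ≤ 0 := by
        rw [hL]
        apply Real.log_nonpos
        · have := harg t
          rw [h1] at this
          exact this.le
        · have : Real.exp (-τ) ≤ 1 := Real.exp_le_one_iff.2 (by linarith)
          nlinarith
      rw [abs_of_nonpos h2]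
      have h3 := harg t
      rw [h1] at h3
      have h4 : 0 ≤ Real.log (1 + P * (Real.exp τ - 1)) + L := by
        rw [hL, ← Real.log_mul (by nlinarith) h3.ne']
        apply Real.log_nonneg
        have h5 : Real.exp τ * Real.exp (-τ) = 1 := by
          rw [← Real.exp_add]
          simp
        have h6 : 0 ≤ Real.exp τ + Real.exp (-τ) - 2 := by
          nlinarith [sq_nonneg (Real.exp τ - Real.exp (-τ)), Real.exp_pos τ, Real.exp_pos (-τ)]
        have h7 : (1 + P * (Real.exp τ - 1)) * (1 + P * (Real.exp (-τ) - 1)) =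
            1 + P * (1 - P) * (Real.exp τ + Real.exp (-τ) - 2) + P ^ 2 * (Real.exp τ * Real.exp (-τ) - 1) := by
          ring
        rw [h7, h5]
        have h8 : 0 ≤ P * (1 - P) * (Real.exp τ + Real.exp (-τ) - 2) :=
          mul_nonneg (mul_nonneg hP0 (by linarith)) h6
        linarith
      linarith
  have hL1 : |L| ≤ P * Real.exp τ := by
    refine hLτ.trans ?_
    have h1 : 0 < 1 + P * (Real.exp τ - 1) := by
      have hE : 0 ≤ Real.exp τ - 1 := by linarith [Real.one_le_exp hτ0]
      nlinarith
    have h2 := Real.log_le_sub_one_of_pos h1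
    nlinarith
  have hL2 : |L| ≤ τ := by
    refine hLτ.trans ?_
    have h1 : 0 < 1 + P * (Real.exp τ - 1) := by
      have hE : 0 ≤ Real.exp τ - 1 := by linarith [Real.one_le_exp hτ0]
      nlinarith
    rw [Real.log_le_iff_le_exp h1]
    have hE : 0 ≤ Real.exp τ - 1 := by linarith [Real.one_le_exp hτ0]
    nlinarith
  -- lower bound at xp
  set Q := Real.log (1 + P * (Real.exp (xp - xm) - 1)) with hQ
  have hlen : 0 < xp - xm := by linarith
  have hQ1 : P * (xp - xm) ≤ Q := by
    have h1 : Real.exp (P * (xp - xm)) ≤ 1 + P * (Real.exp (xp - xm) - 1) := by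
      have h2 := convexOn_exp.2 (Set.mem_univ (0 : ℝ)) (Set.mem_univ (xp - xm)) (by linarith : (0 : ℝ) ≤ 1 - P) hP0
        (by ring)
      simp only [smul_eq_mul, mul_zero, zero_add, Real.exp_zero, mul_one] at h2
      linarith
    rw [hQ, Real.le_log_iff_exp_le (harg xp)]
    exact h1
  have hQ0 : 0 ≤ Q := le_trans (by positivity) hQ1
  have hQ2 : Q ≤ xp - xm := by
    rw [hQ, Real.log_le_iff_le_exp (harg xp)]
    have hE : 0 ≤ Real.exp (xp - xm) - 1 := by linarith [Real.one_le_exp hlen.le]
    nlinarith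
  -- now the logistic function
  set y := (Real.log Z0 - m) / D with hy
  have e1 : (Real.log (a + b * Real.exp t) - m) / D = y + L / D := by
    rw [hy, hL, ← hl t]
    ring
  have e2 : (Real.log (a + b * Real.exp xp) - m) / D = y + Q / D := by
    rw [hy, hQ, ← hl xp]
    ring
  rw [e1, e2]
  have g0 := lg'_nonneg y
  have k1 : |lg (y + L / D) - lg y| ≤ (P * Real.exp (2 * τ) / D) * lg' y := by
    refine (lg_abs_le y (L / D)).trans (mul_le_mul_of_nonneg_right ?_ g0)
    have h1 : |L / D| = |L| / D := by rw [abs_div, abs_of_pos hD0]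
    rw [h1]
    have h2 : |L| / D ≤ τ := by
      rw [div_le_iff₀ hD0]
      nlinarith
    have h3 : 0 ≤ |L| / D := by positivity
    have h4 : Real.exp (|L| / D) - 1 ≤ |L| / D * Real.exp (|L| / D) := by
      have h5 := Real.add_one_le_exp (-(|L| / D))
      have h6 : Real.exp (|L| / D) * Real.exp (-(|L| / D)) = 1 := by
        rw [← Real.exp_add]
        simp
      have h7 := Real.exp_pos (|L| / D)
      nlinarith [mul_le_mul_of_nonneg_left h5 h7.le]
    refine h4.trans ?_
    have h8 : Real.exp (2 * τ) = Real.exp τ * Real.exp τ := by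
      rw [← Real.exp_add]
      congr 1
      ring
    rw [h8]
    have h9 : |L| / D ≤ P * Real.exp τ / D := by gcongr
    have h10 : Real.exp (|L| / D) ≤ Real.exp τ := Real.exp_le_exp.2 h2
    calc |L| / D * Real.exp (|L| / D) ≤ (P * Real.exp τ / D) * Real.exp τ :=
          mul_le_mul h9 h10 (Real.exp_pos _).le (by positivity)
      _ = P * (Real.exp τ * Real.exp τ) / D := by ring
  have k2 : (P * (xp - xm) / D) * Real.exp (-(xp - xm)) * lg' y ≤ lg (y + Q / D) - lg y := by
    refine le_trans (mul_le_mul_of_nonneg_right ?_ g0) (le_lg_sub y (by positivity : 0 ≤ Q / D))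
    have h1 : Q / D * Real.exp (-(Q / D)) ≤ 1 - Real.exp (-(Q / D)) := by
      have h5 := Real.add_one_le_exp (Q / D)
      have h6 : Real.exp (Q / D) * Real.exp (-(Q / D)) = 1 := by
        rw [← Real.exp_add]
        simp
      have h7 := Real.exp_pos (-(Q / D))
      nlinarith [mul_le_mul_of_nonneg_right h5 h7.le]
    refine le_trans ?_ h1
    have h2 : Q / D ≤ xp - xm := by
      rw [div_le_iff₀ hD0]
      nlinarith
    have h3 : P * (xp - xm) / D ≤ Q / D := by gcongr
    exact mul_le_mul h3 (Real.exp_le_exp.2 (by linarith)) (Real.exp_pos _).le (by positivity)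
  refine k1.trans ?_
  have k3 : Real.exp (xp - xm) / (xp - xm) * Real.exp (2 * τ) *
      ((P * (xp - xm) / D) * Real.exp (-(xp - xm)) * lg' y) = (P * Real.exp (2 * τ) / D) * lg' y := by
    have h6 : Real.exp (xp - xm) * Real.exp (-(xp - xm)) = 1 := by
      rw [← Real.exp_add]
      simp
    have : Real.exp (xp - xm) / (xp - xm) * Real.exp (2 * τ) *
      ((P * (xp - xm) / D) * Real.exp (-(xp - xm)) * lg' y) =
      (Real.exp (xp - xm) * Real.exp (-(xp - xm))) * ((xp - xm) / (xp - xm)) * (P * Real.exp (2 * τ) / D) * lg' y := by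
      field_simp
    rw [this, h6, div_self hlen.ne']
    ring
  rw [← k3]
  apply mul_le_mul_of_nonneg_left k2
  have := Real.exp_pos (xp - xm)
  have := Real.exp_pos (2 * τ)
  positivity

end

end Pool.Agent.W_7d29a1_t2
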