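import Mathlib

/-!
MP_7d29a1_pr, rows 616 and 617: reduction of general laws to fair coins.
Part B: the coin decomposition of a law. (helper84)
-/

namespace Pool.Agent.W_7d29a1_t2

open MeasureTheory Set

noncomputable section

/-- Two iid copies are replaced by (min, max) if one is in `[-M, xm]` and the other in `[xp, M]`. -/
def Tm (xm xp M : ℝ) (p : ℝ × ℝ) : ℝ × ℝ :=
  if p.1 ∈ Icc (-M) xm ∧ p.2 ∈ Icc xp M ∨ p.2 ∈ Icc (-M) xm ∧ p.1 ∈ Icc xp M then
    (min p.1 p.2, max p.1 p.2) else (p.1, p.1)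

lemma measurableSet_E (xm xp M : ℝ) : MeasurableSet {p : ℝ × ℝ | p.1 ∈ Icc (-M) xm ∧ p.2 ∈ Icc xp M ∨
    p.2 ∈ Icc (-M) xm ∧ p.1 ∈ Icc xp M} := by
  apply MeasurableSet.union
  · exact (measurable_fst measurableSet_Icc).inter (measurable_snd measurableSet_Icc)
  · exact (measurable_snd measurableSet_Icc).inter (measurable_fst measurableSet_Icc)

lemma measurable_Tm (xm xp M : ℝ) : Measurable (Tm xm xp M) := by
  unfold Tm
  exact Measurable.ite (measurableSet_E xm xp M) ((measurable_fst.min measurable_snd).prodMk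
    (measurable_fst.max measurable_snd)) (measurable_fst.prodMk measurable_fst)

/-- The law of the two values of a coin. -/
def lam (μ : Measure ℝ) (xm xp M : ℝ) : Measure (ℝ × ℝ) := (μ.prod μ).map (Tm xm xp M)

variable {μ : Measure ℝ} [IsProbabilityMeasure μ] {xm xp M : ℝ}

instance : IsProbabilityMeasure (lam μ xm xp M) := by
  unfold lam
  exact Measure.isProbabilityMeasure_map (measurable_Tm _ _ _).aemeasurable

/-- The coins reproduce the law `μ`. -/
theorem integral_lam {f : ℝ → ℝ} (hf : Measurable f) (hint : Integrable f μ) :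
    ∫ z, (f z.1 + f z.2) / 2 ∂(lam μ xm xp M) = ∫ t, f t ∂μ := by
  unfold lam
  have hfm : Measurable fun z : ℝ × ℝ => (f z.1 + f z.2) / 2 :=
    ((hf.comp measurable_fst).add (hf.comp measurable_snd)).div_const 2
  rw [integral_map (measurable_Tm _ _ _).aemeasurable hfm.aestronglyMeasurable]
  set E : Set (ℝ × ℝ) := {p : ℝ × ℝ | p.1 ∈ Icc (-M) xm ∧ p.2 ∈ Icc xp M ∨
    p.2 ∈ Icc (-M) xm ∧ p.1 ∈ Icc xp M} with hE
  have hEm : MeasurableSet E := measurableSet_E xm xp M
  have h1 : ∀ p : ℝ × ℝ, (f (Tm xm xp M p).1 + f (Tm xm xp M p).2) / 2 =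
      f p.1 + (E.indicator (fun p => f p.2) p - E.indicator (fun p => f p.1) p) / 2 := by
    intro p
    by_cases hp : p ∈ E
    · have h2 : Tm xm xp M p = (min p.1 p.2, max p.1 p.2) := by
        unfold Tm
        exact if_pos hp
      rw [h2, indicator_of_mem hp, indicator_of_mem hp]
      rcases le_total p.1 p.2 with h | h
      · rw [min_eq_left h, max_eq_right h]
        ring
      · rw [min_eq_right h, max_eq_left h]
        ring
    · have h2 : Tm xm xp M p = (p.1, p.1) := by
        unfold Tm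
        exact if_neg hp
      rw [h2, indicator_of_notMem hp, indicator_of_notMem hp]
      simp
  simp_rw [h1]
  have i1 : Integrable (fun p : ℝ × ℝ => f p.1) (μ.prod μ) := hint.comp_fst μ
  have i2 : Integrable (fun p : ℝ × ℝ => f p.2) (μ.prod μ) := hint.comp_snd μ
  have i3 : Integrable (E.indicator fun p : ℝ × ℝ => f p.1) (μ.prod μ) := i1.indicator hEm
  have i4 : Integrable (E.indicator fun p : ℝ × ℝ => f p.2) (μ.prod μ) := i2.indicator hEm
  have i5 : Integrable (fun p : ℝ × ℝ => (E.indicator (fun p => f p.2) p -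
      E.indicator (fun p => f p.1) p) / 2) (μ.prod μ) := (i4.sub i3).div_const 2
  rw [integral_add i1 i5, integral_div, integral_sub i4 i3]
  have h3 : ∫ p, E.indicator (fun p : ℝ × ℝ => f p.2) p ∂(μ.prod μ) =
      ∫ p, E.indicator (fun p : ℝ × ℝ => f p.1) p ∂(μ.prod μ) := by
    rw [← integral_prod_swap]
    apply integral_congr_ae
    filter_upwards with p
    have h4 : p.swap ∈ E ↔ p ∈ E := by
      simp only [hE, mem_ofPred_eq, Prod.fst_swap, Prod.snd_swap]
      tauto
    by_cases hp : p ∈ E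
    · rw [indicator_of_mem hp, indicator_of_mem (h4.2 hp)]
      rfl
    · rw [indicator_of_notMem hp, indicator_of_notMem (fun h => hp (h4.1 h))]
  rw [h3]
  have h5 : ∫ p : ℝ × ℝ, f p.1 ∂(μ.prod μ) = ∫ t, f t ∂μ := by
    rw [integral_prod _ i1]
    simp
  rw [h5]
  ring

omit [IsProbabilityMeasure μ] in
lemma lam_ae (hx : xm < xp) : ∀ᵐ z ∂(lam μ xm xp M), z.1 ≤ z.2 ∧ z.2 ≤ z.1 + 2 * M ∨ z.1 = z.2 := by
  unfold lam
  rw [ae_map_iff (measurable_Tm _ _ _).aemeasurable]
  · refine Filter.Eventually.of_forall fun p => ?_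
    by_cases hp : p ∈ {p : ℝ × ℝ | p.1 ∈ Icc (-M) xm ∧ p.2 ∈ Icc xp M ∨
        p.2 ∈ Icc (-M) xm ∧ p.1 ∈ Icc xp M}
    · left
      have h2 : Tm xm xp M p = (min p.1 p.2, max p.1 p.2) := by
        unfold Tm
        exact if_pos hp
      rw [h2]
      rcases hp with ⟨⟨a1, a2⟩, a3, a4⟩ | ⟨⟨a1, a2⟩, a3, a4⟩
      · rw [min_eq_left (by linarith), max_eq_right (by linarith)]
        exact ⟨by simp; linarith, by simp; linarith⟩
      · rw [min_eq_right (by linarith), max_eq_left (by linarith)]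
        exact ⟨by simp; linarith, by simp; linarith⟩
    · right
      have h2 : Tm xm xp M p = (p.1, p.1) := by
        unfold Tm
        exact if_neg hp
      rw [h2]
  · apply MeasurableSet.union
    · exact (measurableSet_le measurable_fst measurable_snd).inter
        (measurableSet_le measurable_snd (measurable_fst.add_const _))
    · exact measurableSet_eq_fun measurable_fst measurable_snd

lemma lam_pos : μ.real (Icc (-M) xm) * μ.real (Icc xp M) ≤
    (lam μ xm xp M).real {z | z.1 ≤ xm ∧ xp ≤ z.2} := by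
  have hm : MeasurableSet {z : ℝ × ℝ | z.1 ≤ xm ∧ xp ≤ z.2} :=
    (measurableSet_le measurable_fst measurable_const).inter (measurableSet_le measurable_const measurable_snd)
  have h1 : (lam μ xm xp M).real {z | z.1 ≤ xm ∧ xp ≤ z.2} =
      (μ.prod μ).real (Tm xm xp M ⁻¹' {z | z.1 ≤ xm ∧ xp ≤ z.2}) := by
    unfold lam
    rw [measureReal_def, measureReal_def, Measure.map_apply (measurable_Tm _ _ _) hm]
  rw [h1]
  have h2 : (μ.prod μ).real (Icc (-M) xm ×ˢ Icc xp M) = μ.real (Icc (-M) xm) * μ.real (Icc xp M) := by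
    rw [measureReal_def, measureReal_def, measureReal_def, Measure.prod_prod, ENNReal.toReal_mul]
  rw [← h2]
  apply measureReal_mono
  · rintro p ⟨p1, p2⟩
    have hp : p ∈ {p : ℝ × ℝ | p.1 ∈ Icc (-M) xm ∧ p.2 ∈ Icc xp M ∨
        p.2 ∈ Icc (-M) xm ∧ p.1 ∈ Icc xp M} := Or.inl ⟨p1, p2⟩
    have h2 : Tm xm xp M p = (min p.1 p.2, max p.1 p.2) := by
      unfold Tm
      exact if_pos hp
    rw [mem_preimage, h2]
    have a1 := p1.2
    have a2 := p2.1
    exact ⟨by simp [a1], by simp [a2]⟩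
  · exact measure_ne_top _ _

end

end Pool.Agent.W_7d29a1_t2
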