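import Pool.Agent.W_7d29a1_t2.RedC

/-!
MP_7d29a1_pr, rows 616 and 617: reduction of general laws to fair coins.
Part D: the coins carry a fixed fraction of the variance. (helper84)
-/

namespace Pool.Agent.W_7d29a1_t2

open MeasureTheory Set

noncomputable section

/-- The class of functions for which one coordinate is controlled by the increment from `xm` to `xp`. -/
structure Cls (xm xp CR : ℝ) (n : ℕ) (Φ : (Fin n → ℝ) → ℝ) : Prop where
  meas : Measurable Φ
  nn : ∀ x, 0 ≤ Φ x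
  le1 : ∀ x, Φ x ≤ 1
  mono : ∀ (x : Fin n → ℝ) (i : Fin n) (s t : ℝ), s ≤ t → Φ (Function.update x i s) ≤ Φ (Function.update x i t)
  rel : ∀ (x : Fin n → ℝ) (i : Fin n) (t : ℝ),
    |Φ (Function.update x i t) - Φ (Function.update x i xm)| ≤
      CR * Real.exp (2 * |t - xm|) * (Φ (Function.update x i xp) - Φ (Function.update x i xm))

variable {xm xp CR : ℝ}

lemma Cls.abs_le {n : ℕ} {Φ : (Fin n → ℝ) → ℝ} (h : Cls xm xp CR n Φ) (x : Fin n → ℝ) : |Φ x| ≤ 1 := by
  rw [abs_of_nonneg (h.nn x)]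
  exact h.le1 x

lemma Cls.slice {n : ℕ} {Φ : (Fin (n + 1) → ℝ) → ℝ} (h : Cls xm xp CR (n + 1) Φ) (t : ℝ) :
    Cls xm xp CR n fun y => Φ (Fin.cons t y : Fin (n + 1) → ℝ) := by
  refine ⟨h.meas.comp (measurable_cons.comp measurable_prodMk_left), fun x => h.nn _, fun x => h.le1 _,
    fun x i s u hs => ?_, fun x i u => ?_⟩
  · simp only [Fin.cons_update]
    exact h.mono _ _ _ _ hs
  · simp only [Fin.cons_update]
    exact h.rel _ _ _

section mean

variable {μ : Measure ℝ} [IsProbabilityMeasure μ]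

/-- The mean over all coordinates but the first. -/
def mn {n : ℕ} (μ : Measure ℝ) (Φ : (Fin (n + 1) → ℝ) → ℝ) (t : ℝ) : ℝ :=
  ∫ y, Φ (Fin.cons t y : Fin (n + 1) → ℝ) ∂(Measure.pi fun _ : Fin n => μ)

lemma slice_int {n : ℕ} {Φ : (Fin (n + 1) → ℝ) → ℝ} (h : Cls xm xp CR (n + 1) Φ) (t : ℝ) :
    Integrable (fun y => Φ (Fin.cons t y : Fin (n + 1) → ℝ)) (Measure.pi fun _ : Fin n => μ) :=
  bdd_int (h.slice t).meas (h.slice t).abs_le

lemma mn_meas {n : ℕ} {Φ : (Fin (n + 1) → ℝ) → ℝ} (h : Cls xm xp CR (n + 1) Φ) : Measurable (mn μ Φ) :=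
  measurable_inner μ h.meas

lemma mn_abs_le {n : ℕ} {Φ : (Fin (n + 1) → ℝ) → ℝ} (h : Cls xm xp CR (n + 1) Φ) (t : ℝ) : |mn μ Φ t| ≤ 1 :=
  abs_inner_le μ (fun x => h.abs_le x) t

lemma mn_mono {n : ℕ} {Φ : (Fin (n + 1) → ℝ) → ℝ} (h : Cls xm xp CR (n + 1) Φ) : Monotone (mn μ Φ) := by
  intro s t hst
  refine integral_mono (slice_int h s) (slice_int h t) fun y => ?_
  have := h.mono (Fin.cons s y) 0 s t hst
  simpa using this

lemma mn_rel {n : ℕ} {Φ : (Fin (n + 1) → ℝ) → ℝ} (h : Cls xm xp CR (n + 1) Φ) (t : ℝ) :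
    |mn μ Φ t - mn μ Φ xm| ≤ CR * Real.exp (2 * |t - xm|) * (mn μ Φ xp - mn μ Φ xm) := by
  unfold mn
  rw [← integral_sub (slice_int h t) (slice_int h xm), ← integral_sub (slice_int h xp) (slice_int h xm),
    ← integral_const_mul]
  refine (abs_integral_le_integral_abs).trans ?_
  refine integral_mono ((slice_int h t).sub (slice_int h xm)).abs
    (((slice_int h xp).sub (slice_int h xm)).const_mul _) fun y => ?_
  have := h.rel (Fin.cons t y) 0 t
  simpa using this

end mean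

variable {μ : Measure ℝ} [IsProbabilityMeasure μ] {M : ℝ}

/-- The one coordinate inequality. -/
theorem var_one {v : ℝ → ℝ} (hv : Measurable v) (hb : ∀ t, |v t| ≤ 1) (hm : Monotone v)
    (hx : xm < xp) (hrel : ∀ t, |v t - v xm| ≤ CR * Real.exp (2 * |t - xm|) * (v xp - v xm))
    (hint : Integrable (fun t => Real.exp (4 * |t - xm|)) μ) {c θ : ℝ} (hc : 0 ≤ c)
    (hθ : θ ≤ (lam μ xm xp M).real {z | z.1 ≤ xm ∧ xp ≤ z.2})
    (hcθ : 4 * c * (CR ^ 2 * ∫ t, Real.exp (4 * |t - xm|) ∂μ) ≤ θ) :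
    ∫ z, ((v z.1 + v z.2) / 2) ^ 2 ∂(lam μ xm xp M) ≤
      (1 - c) * ∫ t, v t ^ 2 ∂μ + c * (∫ t, v t ∂μ) ^ 2 := by
  set Δ := v xp - v xm with hΔ
  have hΔ0 : 0 ≤ Δ := by
    have := hm hx.le
    linarith
  have hb2 : ∀ t, |v t ^ 2| ≤ 1 := by
    intro t
    rw [abs_pow]
    exact pow_le_one₀ (abs_nonneg _) (hb t)
  -- the coins
  have hm1 : Measurable fun z : ℝ × ℝ => v z.1 := hv.comp measurable_fst
  have hm2 : Measurable fun z : ℝ × ℝ => v z.2 := hv.comp measurable_snd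
  have i1 : Integrable (fun z : ℝ × ℝ => (v z.1 ^ 2 + v z.2 ^ 2) / 2) (lam μ xm xp M) := by
    have hmm : Measurable fun z : ℝ × ℝ => (v z.1 ^ 2 + v z.2 ^ 2) / 2 := by fun_prop
    refine bdd_int (C := 1) hmm ?_
    intro z
    have h1 := abs_le.1 (hb2 z.1)
    have h2 := abs_le.1 (hb2 z.2)
    rw [abs_le]
    constructor <;> linarith
  have i2 : Integrable (fun z : ℝ × ℝ => ((v z.2 - v z.1) / 2) ^ 2) (lam μ xm xp M) := by
    have hmm : Measurable fun z : ℝ × ℝ => ((v z.2 - v z.1) / 2) ^ 2 := by fun_prop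
    refine bdd_int (C := 1) hmm ?_
    intro z
    have h1 := abs_le.1 (hb z.1)
    have h2 := abs_le.1 (hb z.2)
    rw [abs_of_nonneg (sq_nonneg _)]
    nlinarith
  have e1 : ∫ z, ((v z.1 + v z.2) / 2) ^ 2 ∂(lam μ xm xp M) =
      ∫ t, v t ^ 2 ∂μ - ∫ z, ((v z.2 - v z.1) / 2) ^ 2 ∂(lam μ xm xp M) := by
    rw [← integral_lam (μ := μ) (xm := xm) (xp := xp) (M := M) (f := fun t => v t ^ 2) (hv.pow_const 2)
      (bdd_int (hv.pow_const 2) hb2), ← integral_sub i1 i2]
    apply integral_congr_ae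
    filter_upwards with z
    ring
  have hE : MeasurableSet {z : ℝ × ℝ | z.1 ≤ xm ∧ xp ≤ z.2} :=
    (measurableSet_le measurable_fst measurable_const).inter (measurableSet_le measurable_const measurable_snd)
  have e2 : θ * (Δ / 2) ^ 2 ≤ ∫ z, ((v z.2 - v z.1) / 2) ^ 2 ∂(lam μ xm xp M) := by
    have h1 : ∫ z, {z : ℝ × ℝ | z.1 ≤ xm ∧ xp ≤ z.2}.indicator (fun _ => (Δ / 2) ^ 2) z ∂(lam μ xm xp M) ≤
        ∫ z, ((v z.2 - v z.1) / 2) ^ 2 ∂(lam μ xm xp M) := by
      apply integral_mono ((integrable_const _).indicator hE) i2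
      intro z
      by_cases hz : z ∈ {z : ℝ × ℝ | z.1 ≤ xm ∧ xp ≤ z.2}
      · rw [indicator_of_mem hz]
        have h2 := hm hz.1
        have h3 := hm hz.2
        have h4 : Δ ≤ v z.2 - v z.1 := by rw [hΔ]; linarith
        show (Δ / 2) ^ 2 ≤ ((v z.2 - v z.1) / 2) ^ 2
        nlinarith
      · rw [indicator_of_notMem hz]
        positivity
    rw [integral_indicator hE, setIntegral_const, smul_eq_mul] at h1
    exact (mul_le_mul_of_nonneg_right hθ (sq_nonneg _)).trans h1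
  -- the variance
  have iv : Integrable v μ := bdd_int hv hb
  have iv2 : Integrable (fun t => v t ^ 2) μ := bdd_int (hv.pow_const 2) hb2
  have e3 : ∫ t, v t ^ 2 ∂μ - (∫ t, v t ∂μ) ^ 2 ≤ CR ^ 2 * Δ ^ 2 * ∫ t, Real.exp (4 * |t - xm|) ∂μ := by
    have h1 : ∫ t, (v t - v xm) ^ 2 ∂μ = ∫ t, v t ^ 2 ∂μ - 2 * v xm * ∫ t, v t ∂μ + v xm ^ 2 := by
      have : ∀ t, (v t - v xm) ^ 2 = v t ^ 2 - 2 * v xm * v t + v xm ^ 2 := fun t => by ring
      simp_rw [this]
      have j0 : Integrable (fun t => 2 * v xm * v t) μ := iv.const_mul _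
      have j1 : Integrable (fun t => v t ^ 2 - 2 * v xm * v t) μ := iv2.sub j0
      rw [integral_add j1 (integrable_const _), integral_sub iv2 j0, integral_const_mul]
      simp
    have h2 : ∫ t, (v t - v xm) ^ 2 ∂μ ≤ ∫ t, CR ^ 2 * Δ ^ 2 * Real.exp (4 * |t - xm|) ∂μ := by
      apply integral_mono
      · have hmm : Measurable fun t => (v t - v xm) ^ 2 := by fun_prop
        refine bdd_int (C := 4) hmm ?_
        intro t
        have h3 := abs_le.1 (hb t)
        have h4 := abs_le.1 (hb xm)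
        rw [abs_of_nonneg (sq_nonneg _)]
        nlinarith
      · exact hint.const_mul _
      · intro t
        have h3 := hrel t
        have h4 : (v t - v xm) ^ 2 = |v t - v xm| ^ 2 := (sq_abs _).symm
        have h5 : Real.exp (4 * |t - xm|) = Real.exp (2 * |t - xm|) ^ 2 := by
          rw [← Real.exp_nat_mul]
          congr 1
          push_cast
          ring
        show (v t - v xm) ^ 2 ≤ CR ^ 2 * Δ ^ 2 * Real.exp (4 * |t - xm|)
        rw [h4, h5]
        calc |v t - v xm| ^ 2 ≤ (CR * Real.exp (2 * |t - xm|) * Δ) ^ 2 :=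
              pow_le_pow_left₀ (abs_nonneg _) h3 2
          _ = CR ^ 2 * Δ ^ 2 * Real.exp (2 * |t - xm|) ^ 2 := by ring
    rw [integral_const_mul] at h2
    nlinarith [sq_nonneg (∫ t, v t ∂μ - v xm)]
  rw [e1]
  have h6 : c * (∫ t, v t ^ 2 ∂μ - (∫ t, v t ∂μ) ^ 2) ≤ θ * (Δ / 2) ^ 2 := by
    refine (mul_le_mul_of_nonneg_left e3 hc).trans ?_
    have h7 : c * (CR ^ 2 * Δ ^ 2 * ∫ t, Real.exp (4 * |t - xm|) ∂μ) =
        (4 * c * (CR ^ 2 * ∫ t, Real.exp (4 * |t - xm|) ∂μ)) * (Δ / 2) ^ 2 := by ring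
    rw [h7]
    exact mul_le_mul_of_nonneg_right hcθ (sq_nonneg _)
  linarith

/-- The coins carry a fixed fraction of the variance. -/
theorem var_main (hx : xm < xp) (hint : Integrable (fun t => Real.exp (4 * |t - xm|)) μ) {c θ : ℝ}
    (hc : 0 ≤ c) (hc1 : c ≤ 1) (hθ : θ ≤ (lam μ xm xp M).real {z | z.1 ≤ xm ∧ xp ≤ z.2})
    (hcθ : 4 * c * (CR ^ 2 * ∫ t, Real.exp (4 * |t - xm|) ∂μ) ≤ θ) :
    ∀ (n : ℕ) (Φ : (Fin n → ℝ) → ℝ), Cls xm xp CR n Φ →
    ∫ z, av Φ z ^ 2 ∂(Measure.pi fun _ : Fin n => lam μ xm xp M) ≤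
      (1 - c) * ∫ x, Φ x ^ 2 ∂(Measure.pi fun _ : Fin n => μ) +
        c * (∫ x, Φ x ∂(Measure.pi fun _ : Fin n => μ)) ^ 2 := by
  intro n
  induction n with
  | zero =>
    intro Φ h
    have h1 : ∀ z, av Φ z = Φ default := by
      intro z
      unfold av
      rw [Fintype.sum_eq_single default fun b hb => absurd (Subsingleton.elim b default) hb]
      simp only [pow_zero, div_one]
      congr 1
      exact Subsingleton.elim _ _
    have h2 : ∀ x, Φ x = Φ default := fun x => by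
      congr 1
      exact Subsingleton.elim _ _
    have e1 : ∫ z, av Φ z ^ 2 ∂(Measure.pi fun _ : Fin 0 => lam μ xm xp M) = Φ default ^ 2 := by
      simp_rw [h1]
      simp
    have e2 : ∫ x, Φ x ^ 2 ∂(Measure.pi fun _ : Fin 0 => μ) = Φ default ^ 2 := by
      have h3 : (fun x => Φ x ^ 2) = fun _ => Φ default ^ 2 := by
        funext x
        rw [h2 x]
      rw [h3]
      simp
    have e3 : ∫ x, Φ x ∂(Measure.pi fun _ : Fin 0 => μ) = Φ default := by
      have h3 : (fun x => Φ x) = fun _ => Φ default := by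
        funext x
        rw [h2 x]
      rw [h3]
      simp
    rw [e1, e2, e3]
    linarith
  | succ n ih =>
    intro Φ h
    have hb := h.abs_le
    have hb2 : ∀ x, |Φ x ^ 2| ≤ 1 := by
      intro t
      rw [abs_pow]
      exact pow_le_one₀ (abs_nonneg _) (hb t)
    have hΦ2 : Measurable fun x => Φ x ^ 2 := h.meas.pow_const 2
    have hav2 : ∀ z, |av Φ z ^ 2| ≤ 1 := by
      intro z
      rw [abs_pow]
      exact pow_le_one₀ (abs_nonneg _) (abs_av_le hb z)
    rw [integral_cons _ ((measurable_av h.meas).pow_const 2) hav2, integral_cons _ hΦ2 hb2,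
      integral_cons _ h.meas hb]
    set Ψ := mn μ Φ with hΨ
    set Q : ℝ → ℝ := fun t => ∫ y, Φ (Fin.cons t y : Fin (n + 1) → ℝ) ^ 2 ∂(Measure.pi fun _ : Fin n => μ) with hQ
    have hQm : Measurable Q := measurable_inner μ hΦ2
    have hQb : ∀ t, |Q t| ≤ 1 := fun t => abs_inner_le μ (f := fun x => Φ x ^ 2) hb2 t
    have hΨm : Measurable Ψ := mn_meas h
    have hΨb : ∀ t, |Ψ t| ≤ 1 := mn_abs_le h
    have hΨb2 : ∀ t, |Ψ t ^ 2| ≤ 1 := by
      intro t
      rw [abs_pow]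
      exact pow_le_one₀ (abs_nonneg _) (hΨb t)
    -- pointwise in the first site
    have key : ∀ w : ℝ × ℝ, ∫ z, av Φ (Fin.cons w z : Fin (n + 1) → ℝ × ℝ) ^ 2
        ∂(Measure.pi fun _ : Fin n => lam μ xm xp M) ≤
        ((Ψ w.1 + Ψ w.2) / 2) ^ 2 + (1 - c) * (((Q w.1 - Ψ w.1 ^ 2) + (Q w.2 - Ψ w.2 ^ 2)) / 2) := by
      intro w
      set f1 := av (fun y => Φ (Fin.cons w.1 y : Fin (n + 1) → ℝ)) with hf1
      set f2 := av (fun y => Φ (Fin.cons w.2 y : Fin (n + 1) → ℝ)) with hf2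
      have m1 : Measurable f1 := measurable_av (h.slice w.1).meas
      have m2 : Measurable f2 := measurable_av (h.slice w.2).meas
      have b1 : ∀ z, |f1 z| ≤ 1 := abs_av_le (h.slice w.1).abs_le
      have b2 : ∀ z, |f2 z| ≤ 1 := abs_av_le (h.slice w.2).abs_le
      have b1' : ∀ z, |f1 z ^ 2| ≤ 1 := by
        intro z
        rw [abs_pow]
        exact pow_le_one₀ (abs_nonneg _) (b1 z)
      have b2' : ∀ z, |f2 z ^ 2| ≤ 1 := by
        intro z
        rw [abs_pow]
        exact pow_le_one₀ (abs_nonneg _) (b2 z)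
      have j1 : Integrable f1 (Measure.pi fun _ : Fin n => lam μ xm xp M) := bdd_int m1 b1
      have j2 : Integrable f2 (Measure.pi fun _ : Fin n => lam μ xm xp M) := bdd_int m2 b2
      have j3 : Integrable (fun z => f1 z ^ 2) (Measure.pi fun _ : Fin n => lam μ xm xp M) :=
        bdd_int (m1.pow_const 2) b1'
      have j4 : Integrable (fun z => f2 z ^ 2) (Measure.pi fun _ : Fin n => lam μ xm xp M) :=
        bdd_int (m2.pow_const 2) b2'
      have j5 : Integrable (fun z => ((f1 z - f2 z) / 2) ^ 2)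
          (Measure.pi fun _ : Fin n => lam μ xm xp M) := by
        have hmm : Measurable fun z => ((f1 z - f2 z) / 2) ^ 2 := by fun_prop
        refine bdd_int (C := 1) hmm ?_
        intro z
        have h1 := abs_le.1 (b1 z)
        have h2 := abs_le.1 (b2 z)
        rw [abs_of_nonneg (sq_nonneg _)]
        nlinarith
      have a1 : ∫ z, f1 z ∂(Measure.pi fun _ : Fin n => lam μ xm xp M) = Ψ w.1 :=
        integral_av n (h.slice w.1).meas (h.slice w.1).abs_le
      have a2 : ∫ z, f2 z ∂(Measure.pi fun _ : Fin n => lam μ xm xp M) = Ψ w.2 :=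
        integral_av n (h.slice w.2).meas (h.slice w.2).abs_le
      have c1 : ∫ z, f1 z ^ 2 ∂(Measure.pi fun _ : Fin n => lam μ xm xp M) ≤
          (1 - c) * Q w.1 + c * Ψ w.1 ^ 2 := ih _ (h.slice w.1)
      have c2 : ∫ z, f2 z ^ 2 ∂(Measure.pi fun _ : Fin n => lam μ xm xp M) ≤
          (1 - c) * Q w.2 + c * Ψ w.2 ^ 2 := ih _ (h.slice w.2)
      have d1 : ((Ψ w.1 - Ψ w.2) / 2) ^ 2 ≤
          ∫ z, ((f1 z - f2 z) / 2) ^ 2 ∂(Measure.pi fun _ : Fin n => lam μ xm xp M) := by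
        set m := (Ψ w.1 - Ψ w.2) / 2 with hmm
        have h1 : 0 ≤ ∫ z, ((f1 z - f2 z) / 2 - m) ^ 2 ∂(Measure.pi fun _ : Fin n => lam μ xm xp M) :=
          integral_nonneg fun z => sq_nonneg _
        have h2 : ∀ z, ((f1 z - f2 z) / 2 - m) ^ 2 = ((f1 z - f2 z) / 2) ^ 2 - m * (f1 z - f2 z) + m ^ 2 :=
          fun z => by ring
        simp_rw [h2] at h1
        have l0 : Integrable (fun z => m * (f1 z - f2 z)) (Measure.pi fun _ : Fin n => lam μ xm xp M) :=
          (j1.sub j2).const_mul _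
        have l1 : Integrable (fun z => ((f1 z - f2 z) / 2) ^ 2 - m * (f1 z - f2 z))
          (Measure.pi fun _ : Fin n => lam μ xm xp M) := j5.sub l0
        rw [integral_add l1 (integrable_const _), integral_sub j5 l0, integral_const_mul,
          integral_sub j1 j2, a1, a2] at h1
        simp only [integral_const, probReal_univ, one_smul] at h1
        have h3 : m * (Ψ w.1 - Ψ w.2) = 2 * m ^ 2 := by rw [hmm]; ring
        rw [h3] at h1
        linarith
      have h5 : ∀ z, av Φ (Fin.cons w z : Fin (n + 1) → ℝ × ℝ) ^ 2 =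
          (f1 z ^ 2 + f2 z ^ 2) / 2 - ((f1 z - f2 z) / 2) ^ 2 := by
        intro z
        rw [av_cons]
        ring
      simp_rw [h5]
      have l2 : Integrable (fun z => (f1 z ^ 2 + f2 z ^ 2) / 2) (Measure.pi fun _ : Fin n => lam μ xm xp M) :=
        (j3.add j4).div_const 2
      rw [integral_sub l2 j5, integral_div, integral_add j3 j4]
      nlinarith
    -- integrate over the first site
    have k1 : ∫ w, ∫ z, av Φ (Fin.cons w z : Fin (n + 1) → ℝ × ℝ) ^ 2
        ∂(Measure.pi fun _ : Fin n => lam μ xm xp M) ∂(lam μ xm xp M) ≤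
        ∫ w, (((Ψ w.1 + Ψ w.2) / 2) ^ 2 + (1 - c) * (((Q w.1 - Ψ w.1 ^ 2) + (Q w.2 - Ψ w.2 ^ 2)) / 2))
          ∂(lam μ xm xp M) := by
      apply integral_mono
      · exact bdd_int (measurable_inner _ ((measurable_av h.meas).pow_const 2))
          (abs_inner_le _ (f := fun z => av Φ z ^ 2) hav2)
      · apply bdd_int (C := 3)
        · have n1 : Measurable fun w : ℝ × ℝ => Ψ w.1 := hΨm.comp measurable_fst
          have n2 : Measurable fun w : ℝ × ℝ => Ψ w.2 := hΨm.comp measurable_snd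
          have n3 : Measurable fun w : ℝ × ℝ => Q w.1 := hQm.comp measurable_fst
          have n4 : Measurable fun w : ℝ × ℝ => Q w.2 := hQm.comp measurable_snd
          fun_prop
        · intro w
          have g1 := abs_le.1 (hΨb w.1)
          have g2 := abs_le.1 (hΨb w.2)
          have g3 := abs_le.1 (hΨb2 w.1)
          have g4 := abs_le.1 (hΨb2 w.2)
          have g5 := abs_le.1 (hQb w.1)
          have g6 := abs_le.1 (hQb w.2)
          have g7 : |((Ψ w.1 + Ψ w.2) / 2) ^ 2| ≤ 1 := by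
            rw [abs_of_nonneg (sq_nonneg _)]
            nlinarith
          have g8 : |(1 - c) * (((Q w.1 - Ψ w.1 ^ 2) + (Q w.2 - Ψ w.2 ^ 2)) / 2)| ≤ 2 := by
            rw [abs_mul, abs_of_nonneg (by linarith : 0 ≤ 1 - c)]
            have g9 : |((Q w.1 - Ψ w.1 ^ 2) + (Q w.2 - Ψ w.2 ^ 2)) / 2| ≤ 2 := by
              rw [abs_le]
              constructor <;> linarith
            calc (1 - c) * |((Q w.1 - Ψ w.1 ^ 2) + (Q w.2 - Ψ w.2 ^ 2)) / 2| ≤ 1 * 2 :=
                  mul_le_mul (by linarith) g9 (abs_nonneg _) (by norm_num)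
              _ = 2 := by norm_num
          exact (abs_add_le _ _).trans (by linarith)
      · exact key
    refine k1.trans ?_
    have i1 : Integrable (fun w : ℝ × ℝ => ((Ψ w.1 + Ψ w.2) / 2) ^ 2) (lam μ xm xp M) := by
      have n1 : Measurable fun w : ℝ × ℝ => Ψ w.1 := hΨm.comp measurable_fst
      have n2 : Measurable fun w : ℝ × ℝ => Ψ w.2 := hΨm.comp measurable_snd
      have hmm : Measurable fun w : ℝ × ℝ => ((Ψ w.1 + Ψ w.2) / 2) ^ 2 := by fun_prop
      refine bdd_int (C := 1) hmm ?_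
      intro w
      have g1 := abs_le.1 (hΨb w.1)
      have g2 := abs_le.1 (hΨb w.2)
      rw [abs_of_nonneg (sq_nonneg _)]
      nlinarith
    have i2 : Integrable (fun w : ℝ × ℝ => ((Q w.1 - Ψ w.1 ^ 2) + (Q w.2 - Ψ w.2 ^ 2)) / 2)
        (lam μ xm xp M) := by
      have n1 : Measurable fun w : ℝ × ℝ => Ψ w.1 := hΨm.comp measurable_fst
      have n2 : Measurable fun w : ℝ × ℝ => Ψ w.2 := hΨm.comp measurable_snd
      have n3 : Measurable fun w : ℝ × ℝ => Q w.1 := hQm.comp measurable_fst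
      have n4 : Measurable fun w : ℝ × ℝ => Q w.2 := hQm.comp measurable_snd
      apply bdd_int (C := 2) (by fun_prop)
      intro w
      have g3 := abs_le.1 (hΨb2 w.1)
      have g4 := abs_le.1 (hΨb2 w.2)
      have g5 := abs_le.1 (hQb w.1)
      have g6 := abs_le.1 (hQb w.2)
      rw [abs_le]
      constructor <;> linarith
    rw [integral_add i1 (i2.const_mul _), integral_const_mul]
    have hd : Measurable fun t => Q t - Ψ t ^ 2 := hQm.sub (hΨm.pow_const 2)
    have hdi : Integrable (fun t => Q t - Ψ t ^ 2) μ := by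
      apply bdd_int (C := 2) hd
      intro t
      have g3 := abs_le.1 (hΨb2 t)
      have g5 := abs_le.1 (hQb t)
      rw [abs_le]
      constructor <;> linarith
    have e5 : ∫ w : ℝ × ℝ, ((Q w.1 - Ψ w.1 ^ 2) + (Q w.2 - Ψ w.2 ^ 2)) / 2 ∂(lam μ xm xp M) =
        ∫ t, (Q t - Ψ t ^ 2) ∂μ := integral_lam (f := fun t => Q t - Ψ t ^ 2) hd hdi
    rw [e5, integral_sub (bdd_int hQm hQb) (bdd_int (hΨm.pow_const 2) hΨb2)]
    have e6 := var_one (μ := μ) (xm := xm) (xp := xp) (CR := CR) (M := M) hΨm hΨb (mn_mono h) hx (mn_rel h)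
      hint hc hθ hcθ
    have e7 : ∫ t, ∫ y, Φ (Fin.cons t y : Fin (n + 1) → ℝ) ^ 2 ∂(Measure.pi fun _ : Fin n => μ) ∂μ =
        ∫ t, Q t ∂μ := rfl
    have e8 : ∫ t, ∫ y, Φ (Fin.cons t y : Fin (n + 1) → ℝ) ∂(Measure.pi fun _ : Fin n => μ) ∂μ =
        ∫ t, Ψ t ∂μ := rfl
    rw [e7, e8]
    linarith

end

end Pool.Agent.W_7d29a1_t2
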