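import Pool.Agent.W_7d29a1_t2.RedA
import Pool.Agent.W_7d29a1_t2.RedD
import Pool.Agent.W_7d29a1_t2.Defs36

/-!
MP_7d29a1_pr, rows 616 and 617: reduction of general laws to fair coins.
Part E: the smooth indicator of the free energy belongs to the class; two levels from a variance. (helper84)
-/

namespace Pool.Agent.W_7d29a1_t2

open MeasureTheory Set
open Pool.Agent.W7d29a1T2 (FE up)

noncomputable section

lemma measurable_FE {n : ℕ} {κ : Type} [Fintype κ] (c : κ → ℝ) (A : κ → Finset (Fin n)) :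
    Measurable (FE c A) := by
  unfold FE
  fun_prop

/-- The partition function as a function of one weight. -/
lemma FE_update {n : ℕ} {κ : Type} [Fintype κ] {c : κ → ℝ} (A : κ → Finset (Fin n)) (hc : ∀ k, 0 ≤ c k)
    (hc' : ∃ k, 0 < c k) (x : Fin n → ℝ) (i : Fin n) :
    ∃ a b : ℝ, 0 ≤ a ∧ 0 ≤ b ∧ 0 < a + b ∧
      ∀ t, FE c A (Function.update x i t) = Real.log (a + b * Real.exp t) := by
  classical
  set g : κ → ℝ := fun k => c k * Real.exp (∑ j ∈ (A k).erase i, x j) with hg
  have hg0 : ∀ k, 0 ≤ g k := fun k => mul_nonneg (hc k) (Real.exp_pos _).le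
  refine ⟨∑ k ∈ Finset.univ.filter (fun k => i ∉ A k), g k, ∑ k ∈ Finset.univ.filter (fun k => i ∈ A k), g k,
    Finset.sum_nonneg fun k _ => hg0 k, Finset.sum_nonneg fun k _ => hg0 k, ?_, fun t => ?_⟩
  · have h1 := Finset.sum_filter_add_sum_filter_not Finset.univ (fun k => i ∈ A k) g
    rw [add_comm] at h1
    rw [h1]
    obtain ⟨k, hk⟩ := hc'
    exact Finset.sum_pos' (fun k _ => hg0 k) ⟨k, Finset.mem_univ _, mul_pos hk (Real.exp_pos _)⟩
  · unfold FE
    congr 1
    have h1 := Finset.sum_filter_add_sum_filter_not Finset.univ (fun k => i ∈ A k)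
      (fun k => c k * Real.exp (∑ j ∈ A k, Function.update x i t j))
    rw [← h1, add_comm, Finset.sum_mul]
    congr 1
    · apply Finset.sum_congr rfl
      intro k hk
      rw [Finset.mem_filter] at hk
      rw [hg]
      simp only
      rw [Finset.erase_eq_of_notMem hk.2]
      congr 2
      apply Finset.sum_congr rfl
      intro j hj
      rw [Function.update_of_ne]
      rintro rfl
      exact hk.2 hj
    · apply Finset.sum_congr rfl
      intro k hk
      rw [Finset.mem_filter] at hk
      rw [hg]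
      simp only
      rw [mul_assoc, ← Real.exp_add]
      congr 2
      rw [← Finset.sum_erase_add _ _ hk.2]
      congr 1
      · apply Finset.sum_congr rfl
        intro j hj
        rw [Function.update_of_ne]
        exact Finset.ne_of_mem_erase hj
      · simp

lemma log_mono_aux {a b : ℝ} (ha : 0 ≤ a) (hb : 0 ≤ b) (hab : 0 < a + b) {s t : ℝ} (h : s ≤ t) :
    Real.log (a + b * Real.exp s) ≤ Real.log (a + b * Real.exp t) := by
  apply Real.log_le_log
  · have := Real.exp_pos s
    rcases eq_or_lt_of_le hb with h | h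
    · rw [← h] at hab ⊢
      simpa using hab
    · have : 0 < b * Real.exp s := mul_pos h this
      linarith
  · have := Real.exp_le_exp.2 h
    nlinarith

/-- The smooth indicator of the free energy is in the class. -/
theorem Cls_FE {n : ℕ} {κ : Type} [Fintype κ] {c : κ → ℝ} (A : κ → Finset (Fin n)) (hc : ∀ k, 0 ≤ c k)
    (hc' : ∃ k, 0 < c k) {xm xp : ℝ} (hx : xm < xp) {D : ℝ} (hD : 1 ≤ D) (m : ℝ) :
    Cls xm xp (Real.exp (xp - xm) / (xp - xm)) n fun x => lg ((FE c A x - m) / D) := by
  refine ⟨?_, fun x => (lg_pos _).le, fun x => (lg_lt_one _).le, fun x i s t h => ?_, fun x i t => ?_⟩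
  · exact lg_mono.measurable.comp (((measurable_FE c A).sub_const m).div_const D)
  · obtain ⟨a, b, ha, hb, hab, he⟩ := FE_update A hc hc' x i
    simp only [he]
    apply lg_mono
    have := log_mono_aux ha hb hab h
    gcongr
  · obtain ⟨a, b, ha, hb, hab, he⟩ := FE_update A hc hc' x i
    simp only [he]
    exact one_coord ha hb hab hx hD t

/-- The gap of the smooth indicator between the two levels. -/
def del0 : ℝ := lg (1 / 2) - lg (-(1 / 2))

lemma del0_pos : 0 < del0 := by
  unfold del0
  have h := le_lg_sub (-(1 / 2)) (r := 1) (by norm_num)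
  have e : (-(1 / 2) + 1 : ℝ) = 1 / 2 := by norm_num
  rw [e] at h
  refine lt_of_lt_of_le ?_ h
  have h1 : Real.exp (-1) < 1 := by
    rw [Real.exp_lt_one_iff]
    norm_num
  have h2 : 0 < lg' (-(1 / 2)) := by
    unfold lg'
    have := Real.exp_pos (-(-(1 / 2) : ℝ))
    positivity
  have : 0 < 1 - Real.exp (-1) := by linarith
  positivity

/-- A lower bound for the variance from the masses below and above two levels. -/
theorem var_lower {Ω : Type*} [MeasurableSpace Ω] {P : Measure Ω} [IsProbabilityMeasure P] {f : Ω → ℝ}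
    (hf : Measurable f) (h0 : ∀ x, 0 ≤ f x) (h1 : ∀ x, f x ≤ 1) {S1 S2 : Set Ω} (hS1 : MeasurableSet S1)
    (hS2 : MeasurableSet S2) {l δ c1 c2 : ℝ} (hδ : 0 ≤ δ) (g1 : ∀ x ∈ S1, f x ≤ l) (g2 : ∀ x ∈ S2, l + δ ≤ f x)
    (p1 : c1 ≤ P.real S1) (p2 : c2 ≤ P.real S2) :
    min c1 c2 * (δ / 2) ^ 2 ≤ ∫ x, f x ^ 2 ∂P - (∫ x, f x ∂P) ^ 2 := by
  have hb : ∀ x, |f x| ≤ 1 := fun x => by
    rw [abs_of_nonneg (h0 x)]
    exact h1 x
  have hb2 : ∀ x, |f x ^ 2| ≤ 1 := by
    intro t
    rw [abs_pow]
    exact pow_le_one₀ (abs_nonneg _) (hb t)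
  have i1 : Integrable f P := bdd_int hf hb
  have i2 : Integrable (fun x => f x ^ 2) P := bdd_int (hf.pow_const 2) hb2
  set m := ∫ x, f x ∂P with hm
  have j0 : Integrable (fun x => 2 * m * f x) P := i1.const_mul _
  have j1 : Integrable (fun x => f x ^ 2 - 2 * m * f x) P := i2.sub j0
  have e1 : ∫ x, (f x - m) ^ 2 ∂P = ∫ x, f x ^ 2 ∂P - m ^ 2 := by
    have : ∀ x, (f x - m) ^ 2 = f x ^ 2 - 2 * m * f x + m ^ 2 := fun t => by ring
    simp_rw [this]
    rw [integral_add j1 (integrable_const _), integral_sub i2 j0, integral_const_mul, ← hm]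
    simp
    ring
  have i3 : Integrable (fun x => (f x - m) ^ 2) P := by
    have : (fun x => (f x - m) ^ 2) = fun x => f x ^ 2 - 2 * m * f x + m ^ 2 := by
      funext x
      ring
    rw [this]
    exact j1.add (integrable_const _)
  rw [← e1]
  have key : ∀ S : Set Ω, MeasurableSet S → (∀ x ∈ S, (δ / 2) ^ 2 ≤ (f x - m) ^ 2) →
      P.real S * (δ / 2) ^ 2 ≤ ∫ x, (f x - m) ^ 2 ∂P := by
    intro S hS h
    have h1 : ∫ x, S.indicator (fun _ => (δ / 2) ^ 2) x ∂P ≤ ∫ x, (f x - m) ^ 2 ∂P := by
      apply integral_mono ((integrable_const _).indicator hS) i3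
      intro x
      by_cases hx : x ∈ S
      · rw [indicator_of_mem hx]
        exact h x hx
      · rw [indicator_of_notMem hx]
        positivity
    rw [integral_indicator hS, setIntegral_const, smul_eq_mul] at h1
    exact h1
  rcases le_total m (l + δ / 2) with h | h
  · refine le_trans ?_ (key S2 hS2 fun x hx => ?_)
    · exact mul_le_mul_of_nonneg_right ((min_le_right _ _).trans p2) (sq_nonneg _)
    · have := g2 x hx
      nlinarith
  · refine le_trans ?_ (key S1 hS1 fun x hx => ?_)
    · exact mul_le_mul_of_nonneg_right ((min_le_left _ _).trans p1) (sq_nonneg _)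
    · have := g1 x hx
      nlinarith

/-- Two levels from a variance, uniform measure on a finite set. -/
theorem two_levels {α : Type*} [Fintype α] [Nonempty α] {f : α → ℝ} (h0 : ∀ x, 0 ≤ f x)
    (h1 : ∀ x, f x ≤ 1) {N mu κ : ℝ} (hκ : 0 < κ) (hN : N = Fintype.card α) (hmu : N * mu = ∑ x, f x)
    (hv : N * κ ≤ ∑ x, f x ^ 2 - N * mu ^ 2) :
    κ / 4 * N ≤ ((Finset.univ.filter fun x => f x ≤ mu - κ / 4).card : ℝ) ∧
      κ / 4 * N ≤ ((Finset.univ.filter fun x => mu + κ / 4 ≤ f x).card : ℝ) := by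
  have hN0 : 0 < N := by
    rw [hN]
    exact_mod_cast Fintype.card_pos
  have hcard : ∀ r : ℝ, ∑ _x : α, r = N * r := by
    intro r
    rw [Finset.sum_const, Finset.card_univ, nsmul_eq_mul, hN]
  have hmu0 : 0 ≤ mu := by
    have : 0 ≤ ∑ x, f x := Finset.sum_nonneg fun x _ => h0 x
    rw [← hmu] at this
    exact nonneg_of_mul_nonneg_right this hN0
  have hmu1 : mu ≤ 1 := by
    have h2 : ∑ x, f x ≤ ∑ _x : α, (1 : ℝ) := Finset.sum_le_sum fun x _ => h1 x
    rw [hcard, ← hmu] at h2
    nlinarith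
  have e1 : ∑ x, (f x - mu) = 0 := by
    rw [Finset.sum_sub_distrib, hcard, ← hmu]
    ring
  have e2 : ∑ x, (f x - mu) ^ 2 = ∑ x, f x ^ 2 - N * mu ^ 2 := by
    have : ∀ x, (f x - mu) ^ 2 = f x ^ 2 - 2 * mu * f x + mu ^ 2 := fun t => by ring
    simp_rw [this]
    rw [Finset.sum_add_distrib, Finset.sum_sub_distrib, hcard, ← Finset.mul_sum, ← hmu]
    ring
  have e3 : N * κ ≤ ∑ x, |f x - mu| := by
    refine hv.trans ?_
    rw [← e2]
    apply Finset.sum_le_sum
    intro x _
    have h2 : |f x - mu| ≤ 1 := by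
      rw [abs_le]
      constructor <;> linarith [h0 x, h1 x]
    have h3 := abs_nonneg (f x - mu)
    rw [← sq_abs]
    nlinarith
  have hind : ∀ p : α → Prop, ∀ _ : DecidablePred p,
      ((Finset.univ.filter p).card : ℝ) = ∑ x, if p x then (1 : ℝ) else 0 := by
    intro p hp
    rw [Finset.sum_boole]
  constructor
  · have h4 : ∀ x, |f x - mu| - (f x - mu) ≤ 2 * (κ / 4 + if f x ≤ mu - κ / 4 then 1 else 0) := by
      intro x
      have g0 := h0 x
      have g1 := h1 x
      rcases le_total 0 (f x - mu) with h | h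
      · rw [abs_of_nonneg h]
        split_ifs with h5
        · linarith
        · linarith
      · rw [abs_of_nonpos h]
        split_ifs with h5
        · linarith
        · linarith
    have h5 := Finset.sum_le_sum fun x (_ : x ∈ Finset.univ) => h4 x
    rw [Finset.sum_sub_distrib, e1, ← Finset.mul_sum, Finset.sum_add_distrib, hcard, ← hind] at h5
    linarith
  · have h4 : ∀ x, |f x - mu| + (f x - mu) ≤ 2 * (κ / 4 + if mu + κ / 4 ≤ f x then 1 else 0) := by
      intro x
      have g0 := h0 x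
      have g1 := h1 x
      rcases le_total 0 (f x - mu) with h | h
      · rw [abs_of_nonneg h]
        split_ifs with h5
        · linarith
        · linarith
      · rw [abs_of_nonpos h]
        split_ifs with h5
        · linarith
        · linarith
    have h5 := Finset.sum_le_sum fun x (_ : x ∈ Finset.univ) => h4 x
    rw [Finset.sum_add_distrib, e1, ← Finset.mul_sum, Finset.sum_add_distrib, hcard, ← hind] at h5
    linarith

end

end Pool.Agent.W_7d29a1_t2
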