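import Pool.Agent.W_7d29a1_t2.RedE
import Pool.Agent.W_7d29a1_h47.Defs
import Pool.Agent.W_7d29a1_h47.SiteG

/-!
MP_7d29a1_pr, rows 616 and 617: reduction of general laws to fair coins.
Part F: anti-steepness for all laws from anti-steepness for fair coins. (helper84)
-/

namespace Pool.Agent.W_7d29a1_t2

open MeasureTheory Set
open Pool.Agent.W7d29a1T2 (FE up)
open Pool.Agent.W_7d29a1_h47 (EM Nondeg exists_gap)

noncomputable section

/-- Anti-steepness for fair coins with heights in `[0, Θ]`. -/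
def CubeAS : Prop := ∀ Θ K c1 c2 : ℝ, 0 < Θ → 1 ≤ K → 0 < c1 → 0 < c2 → ∃ p : ℝ, 0 < p ∧ ∃ C : ℝ,
  ∀ (n : ℕ) (κ : Type) [Fintype κ] (c : κ → ℝ) (A : κ → Finset (Fin n)) (θ : Fin n → ℝ) (s1 s2 : ℝ),
    (∀ k, 0 ≤ c k) → (∃ k, 0 < c k) → (∀ i, 0 ≤ θ i ∧ θ i ≤ Θ) → C ≤ s2 - s1 →
    c1 * 2 ^ n ≤ ((Finset.univ.filter fun x : Fin n → Bool => FE c A (up θ x 0) ≤ s1).card : ℝ) →
    c2 * 2 ^ n ≤ ((Finset.univ.filter fun x : Fin n → Bool => s2 ≤ FE c A (up θ x 0)).card : ℝ) →
    p * 2 ^ n ≤ ((Finset.univ.filter fun x : Fin n → Bool =>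
      s2 + K * (s2 - s1) ≤ FE c A (up θ x 0)).card : ℝ)

lemma exists_M {μ : Measure ℝ} [IsProbabilityMeasure μ] {xm xp : ℝ} (h1 : 0 < μ.real (Iic xm))
    (h2 : 0 < μ.real (Ici xp)) : ∃ M : ℝ, 0 < M ∧ 0 < μ.real (Icc (-M) xm) ∧ 0 < μ.real (Icc xp M) := by
  have e1 : ∃ k : ℕ, μ (Icc (-(k : ℝ)) xm) ≠ 0 := by
    by_contra h
    push Not at h
    have h3 : Iic xm ⊆ ⋃ k : ℕ, Icc (-(k : ℝ)) xm := by
      intro x hx
      obtain ⟨k, hk⟩ := exists_nat_ge (-x)
      exact mem_iUnion.2 ⟨k, by linarith, hx⟩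
    have h4 : μ (Iic xm) = 0 := measure_mono_null h3 (measure_iUnion_null h)
    rw [measureReal_def, h4] at h1
    simp at h1
  have e2 : ∃ k : ℕ, μ (Icc xp (k : ℝ)) ≠ 0 := by
    by_contra h
    push Not at h
    have h3 : Ici xp ⊆ ⋃ k : ℕ, Icc xp (k : ℝ) := by
      intro x hx
      obtain ⟨k, hk⟩ := exists_nat_ge x
      exact mem_iUnion.2 ⟨k, hx, hk⟩
    have h4 : μ (Ici xp) = 0 := measure_mono_null h3 (measure_iUnion_null h)
    rw [measureReal_def, h4] at h2
    simp at h2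
  obtain ⟨k, hk⟩ := e1
  obtain ⟨l, hl⟩ := e2
  have pos : ∀ s : Set ℝ, μ s ≠ 0 → 0 < μ.real s := fun s hs => by
    rw [measureReal_def]
    exact ENNReal.toReal_pos hs (measure_ne_top _ _)
  have hk' := Nat.cast_nonneg (α := ℝ) k
  have hl' := Nat.cast_nonneg (α := ℝ) l
  refine ⟨k + l + 1, by positivity, ?_, ?_⟩
  · refine lt_of_lt_of_le (pos _ hk) (measureReal_mono (Icc_subset_Icc (by linarith) le_rfl)
      (measure_ne_top _ _))
  · refine lt_of_lt_of_le (pos _ hl) (measureReal_mono (Icc_subset_Icc le_rfl (by linarith))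
      (measure_ne_top _ _))

lemma FE_sel {n : ℕ} {κ : Type} [Fintype κ] (c : κ → ℝ) (A : κ → Finset (Fin n)) (z : Fin n → ℝ × ℝ)
    (x : Fin n → Bool) : FE (fun k => c k * Real.exp (∑ i ∈ A k, (z i).1)) A
      (up (fun i => (z i).2 - (z i).1) x 0) = FE c A (sel z x) := by
  unfold FE
  congr 1
  apply Finset.sum_congr rfl
  intro k _
  rw [mul_assoc, ← Real.exp_add, ← Finset.sum_add_distrib]
  congr 2
  apply Finset.sum_congr rfl
  intro i _
  unfold up sel
  split_ifs
  · ring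
  · simp

lemma av_ind {n : ℕ} (T : Set (Fin n → ℝ)) [DecidablePred (· ∈ T)] (z : Fin n → ℝ × ℝ) :
    av (T.indicator fun _ => (1 : ℝ)) z =
      ((Finset.univ.filter fun x : Fin n → Bool => sel z x ∈ T).card : ℝ) / 2 ^ n := by
  unfold av
  congr 1
  rw [Finset.card_filter]
  push_cast
  apply Finset.sum_congr rfl
  intro x _
  by_cases h : sel z x ∈ T
  · rw [indicator_of_mem h, if_pos h]
  · rw [indicator_of_notMem h, if_neg h]

/-- The step from good frozen values to the large luck, given the frozen values. -/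
lemma cube_step {n : ℕ} {κt : Type} [Fintype κt] {c : κt → ℝ} {A : κt → Finset (Fin n)} {z : Fin n → ℝ × ℝ}
    {Θ K K' κ C' p' s1 s2 : ℝ}
    (hcube : ∀ (c : κt → ℝ) (A : κt → Finset (Fin n)) (θ : Fin n → ℝ) (s1 s2 : ℝ),
      (∀ k, 0 ≤ c k) → (∃ k, 0 < c k) → (∀ i, 0 ≤ θ i ∧ θ i ≤ Θ) → C' ≤ s2 - s1 →
      κ / 4 * 2 ^ n ≤ ((Finset.univ.filter fun x : Fin n → Bool => FE c A (up θ x 0) ≤ s1).card : ℝ) →
      κ / 4 * 2 ^ n ≤ ((Finset.univ.filter fun x : Fin n → Bool => s2 ≤ FE c A (up θ x 0)).card : ℝ) →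
      p' * 2 ^ n ≤ ((Finset.univ.filter fun x : Fin n → Bool =>
        s2 + K' * (s2 - s1) ≤ FE c A (up θ x 0)).card : ℝ))
    (hc : ∀ k, 0 ≤ c k) (hc' : ∃ k, 0 < c k) (hκ : 0 < κ)
    (hz : ∀ i, (z i).1 ≤ (z i).2 ∧ (z i).2 ≤ (z i).1 + Θ) (hD : 0 < s2 - s1) (hK : 0 ≤ K)
    (hK' : 2 / κ * (K + 1 + 4 / κ) ≤ K') (hC' : 2 * C' / κ ≤ s2 - s1)
    (hv : κ ≤ av (fun x => lg ((FE c A x - (s1 + s2) / 2) / (s2 - s1)) ^ 2) z -
      av (fun x => lg ((FE c A x - (s1 + s2) / 2) / (s2 - s1))) z ^ 2) :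
    p' * 2 ^ n ≤ ((Finset.univ.filter fun x : Fin n → Bool =>
      s2 + K * (s2 - s1) ≤ FE c A (sel z x)).card : ℝ) := by
  set D := s2 - s1 with hDdef
  set m := (s1 + s2) / 2 with hm
  set F : (Fin n → Bool) → ℝ := fun x => FE c A (sel z x) with hF
  set f : (Fin n → Bool) → ℝ := fun x => lg ((F x - m) / D) with hf
  set mu := av (fun x => lg ((FE c A x - m) / D)) z with hmu
  have hN : (2 : ℝ) ^ n = Fintype.card (Fin n → Bool) := by simp
  have hN0 : (0 : ℝ) < 2 ^ n := by positivity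
  have e1 : (2 : ℝ) ^ n * mu = ∑ x, f x := by
    rw [hmu]
    unfold av
    field_simp
    rfl
  have e2 : (2 : ℝ) ^ n * av (fun x => lg ((FE c A x - m) / D) ^ 2) z = ∑ x, f x ^ 2 := by
    unfold av
    field_simp
    rfl
  have hf0 : ∀ x, 0 ≤ f x := fun x => (lg_pos _).le
  have hf1 : ∀ x, f x ≤ 1 := fun x => (lg_lt_one _).le
  have hv2 : (2 : ℝ) ^ n * κ ≤ ∑ x, f x ^ 2 - (2 : ℝ) ^ n * mu ^ 2 := by
    rw [← e2]
    nlinarith
  obtain ⟨l1, l2⟩ := two_levels hf0 hf1 hκ hN e1 hv2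
  have hmu0 : 0 ≤ mu := by
    have : 0 ≤ ∑ x, f x := Finset.sum_nonneg fun x _ => hf0 x
    rw [← e1] at this
    exact nonneg_of_mul_nonneg_right this hN0
  have hne1 : (Finset.univ.filter fun x => f x ≤ mu - κ / 4).Nonempty := by
    rw [Finset.nonempty_iff_ne_empty]
    intro h
    rw [h] at l1
    have : 0 < κ / 4 * 2 ^ n := by positivity
    simp at l1
    linarith
  have hne2 : (Finset.univ.filter fun x => mu + κ / 4 ≤ f x).Nonempty := by
    rw [Finset.nonempty_iff_ne_empty]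
    intro h
    rw [h] at l2
    have : 0 < κ / 4 * 2 ^ n := by positivity
    simp at l2
    linarith
  obtain ⟨x1, hx1, hmax⟩ := Finset.exists_max_image _ F hne1
  obtain ⟨x2, hx2, hmin⟩ := Finset.exists_min_image _ F hne2
  rw [Finset.mem_filter] at hx1 hx2
  have g1 : f x1 ≤ mu - κ / 4 := hx1.2
  have g2 : mu + κ / 4 ≤ f x2 := hx2.2
  -- the distance of the levels
  have hlt : F x1 < F x2 := by
    by_contra h
    push Not at h
    have h3 : f x2 ≤ f x1 := by
      apply lg_mono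
      gcongr
    linarith
  have hdist : D * (κ / 2) ≤ F x2 - F x1 := by
    have h3 : (F x2 - m) / D = (F x1 - m) / D + (F x2 - F x1) / D := by ring
    have h4 : 0 ≤ (F x2 - F x1) / D := by
      apply div_nonneg _ hD.le
      linarith
    have h5 : f x2 - f x1 ≤ (F x2 - F x1) / D := by
      have h6 := lg_add ((F x1 - m) / D) ((F x2 - F x1) / D)
      rw [← h3] at h6
      show lg ((F x2 - m) / D) - lg ((F x1 - m) / D) ≤ _
      rw [h6]
      set y := (F x1 - m) / D
      set r := (F x2 - F x1) / D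
      have k1 := Real.exp_pos (-y)
      have k2 := Real.exp_pos (-r)
      have k3 : Real.exp (-r) ≤ 1 := Real.exp_le_one_iff.2 (by linarith)
      have k4 := Real.add_one_le_exp (-r)
      have k5 : 0 < (1 + Real.exp (-y)) * (1 + Real.exp (-y) * Real.exp (-r)) := by positivity
      rw [div_le_iff₀ k5]
      have k6 : Real.exp (-y) * (1 - Real.exp (-r)) ≤ Real.exp (-y) * r :=
        mul_le_mul_of_nonneg_left (by linarith) k1.le
      have k7 : Real.exp (-y) ≤ (1 + Real.exp (-y)) * (1 + Real.exp (-y) * Real.exp (-r)) := by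
        nlinarith [mul_pos k1 k2, mul_pos (mul_pos k1 k2) k1]
      nlinarith [mul_le_mul_of_nonneg_right k7 h4]
    have h6 : κ / 2 ≤ (F x2 - F x1) / D := by linarith
    rw [le_div_iff₀ hD] at h6
    linarith
  -- the upper level is not too low
  have hlow : m - D * (4 / κ) ≤ F x2 := by
    have h3 : κ / 4 ≤ f x2 := by linarith
    have h4 : κ / 4 ≤ lg ((F x2 - m) / D) := h3
    unfold lg at h4
    have k1 := Real.exp_pos (-((F x2 - m) / D))
    rw [le_div_iff₀ (by positivity)] at h4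
    have k2 := Real.add_one_le_exp (-((F x2 - m) / D))
    have k3 : -((F x2 - m) / D) ≤ 4 / κ := by
      rw [le_div_iff₀ hκ]
      nlinarith
    have k4 : -(F x2 - m) ≤ 4 / κ * D := by
      have : -((F x2 - m) / D) = (-(F x2 - m)) / D := by ring
      rw [this, div_le_iff₀ hD] at k3
      exact k3
    linarith
  have hfin := hcube (fun k => c k * Real.exp (∑ i ∈ A k, (z i).1)) A (fun i => (z i).2 - (z i).1)
    (F x1) (F x2) (fun k => mul_nonneg (hc k) (Real.exp_pos _).le)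
    (by
      obtain ⟨k, hk⟩ := hc'
      exact ⟨k, mul_pos hk (Real.exp_pos _)⟩)
    (fun i => ⟨by linarith [(hz i).1], by linarith [(hz i).2]⟩)
    (by
      rw [div_le_iff₀ hκ] at hC'
      linarith)
    (by
      simp only [FE_sel]
      refine l1.trans ?_
      norm_cast
      apply Finset.card_le_card
      intro x hx
      rw [Finset.mem_filter]
      exact ⟨Finset.mem_univ _, hmax x hx⟩)
    (by
      simp only [FE_sel]
      refine l2.trans ?_
      norm_cast
      apply Finset.card_le_card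
      intro x hx
      rw [Finset.mem_filter]
      exact ⟨Finset.mem_univ _, hmin x hx⟩)
  refine hfin.trans ?_
  norm_cast
  apply Finset.card_le_card
  intro x hx
  rw [Finset.mem_filter] at hx ⊢
  refine ⟨Finset.mem_univ _, ?_⟩
  have h3 := hx.2
  rw [FE_sel] at h3
  refine le_trans ?_ h3
  -- arithmetic
  have hd0 : 0 ≤ F x2 - F x1 := by linarith
  have q1 : 2 / κ * (K + 1 + 4 / κ) * (F x2 - F x1) ≤ K' * (F x2 - F x1) :=
    mul_le_mul_of_nonneg_right hK' hd0
  have q2 : m + D / 2 = s2 := by rw [hm, hDdef]; ring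
  have hpos : 0 ≤ K + 1 + 4 / κ := by positivity
  have q3 : 2 / κ * (K + 1 + 4 / κ) * (D * (κ / 2)) ≤ 2 / κ * (K + 1 + 4 / κ) * (F x2 - F x1) := by
    apply mul_le_mul_of_nonneg_left hdist
    positivity
  have q4 : 2 / κ * (K + 1 + 4 / κ) * (D * (κ / 2)) = D * (K + 1 + 4 / κ) := by
    field_simp
  rw [q4] at q3
  nlinarith

/-- ANTI-STEEPNESS AT CONSTANT PROBABILITY, all laws with exponential moments (Part E of row 617), from the
statement for fair coins. -/
theorem antisteep_of_cube (hcube : CubeAS) {μ : Measure ℝ} [IsProbabilityMeasure μ] (hμ : EM μ)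
    (hnd : Nondeg μ) {K c1 c2 : ℝ} (hK : 1 ≤ K) (hc1 : 0 < c1) (hc2 : 0 < c2) :
    ∃ p : ℝ, 0 < p ∧ ∃ C : ℝ, ∀ (n : ℕ) (κ : Type) [Fintype κ] (c : κ → ℝ) (A : κ → Finset (Fin n)) (s1 s2 : ℝ),
      (∀ k, 0 ≤ c k) → (∃ k, 0 < c k) → C ≤ s2 - s1 →
      c1 ≤ (Measure.pi fun _ : Fin n => μ).real {x | FE c A x ≤ s1} →
      c2 ≤ (Measure.pi fun _ : Fin n => μ).real {x | s2 ≤ FE c A x} →
      p ≤ (Measure.pi fun _ : Fin n => μ).real {x | s2 + K * (s2 - s1) ≤ FE c A x} := by
  classical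
  obtain ⟨xm, xp, hx, hqm, hqp⟩ := exists_gap hnd
  obtain ⟨M, hM, hMm, hMp⟩ := exists_M hqm hqp
  set θ0 := μ.real (Icc (-M) xm) * μ.real (Icc xp M) with hθ0
  have hθ0p : 0 < θ0 := mul_pos hMm hMp
  have hint : Integrable (fun t => Real.exp (4 * |t - xm|)) μ := by
    have h1 := (hμ 4).const_mul (Real.exp (4 * |xm|))
    refine h1.mono' (by fun_prop) (Filter.Eventually.of_forall fun t => ?_)
    rw [Real.norm_eq_abs, abs_of_pos (Real.exp_pos _), ← Real.exp_add]
    apply Real.exp_le_exp.2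
    have := abs_sub t xm
    linarith
  set Mom := ∫ t, Real.exp (4 * |t - xm|) ∂μ with hMom
  have hMom1 : 1 ≤ Mom := by
    have h1 : ∫ _t, (1 : ℝ) ∂μ ≤ Mom := by
      apply integral_mono (integrable_const _) hint
      intro t
      exact Real.one_le_exp (by positivity)
    simpa using h1
  set CR := Real.exp (xp - xm) / (xp - xm) with hCR
  have hlen : 0 < xp - xm := by linarith
  have hCR0 : 0 < CR := div_pos (Real.exp_pos _) hlen
  set cc := min 1 (θ0 / (4 * (CR ^ 2 * Mom))) with hcc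
  have hMom0 : 0 < Mom := by linarith
  have hcc0 : 0 < cc := by
    rw [hcc]
    apply lt_min one_pos
    positivity
  have hcc1 : cc ≤ 1 := min_le_left _ _
  have hccθ : 4 * cc * (CR ^ 2 * Mom) ≤ θ0 := by
    have h1 : cc ≤ θ0 / (4 * (CR ^ 2 * Mom)) := min_le_right _ _
    rw [le_div_iff₀ (by positivity)] at h1
    linarith
  set κ := cc * (min c1 c2 * (del0 / 2) ^ 2) with hκ
  have hd0 := del0_pos
  have hκ0 : 0 < κ := by
    have : 0 < min c1 c2 := lt_min hc1 hc2
    positivity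
  set κ1 := κ / 2 with hκ1
  have hκ10 : 0 < κ1 := by positivity
  set K' := max 1 (2 / κ1 * (K + 1 + 4 / κ1)) with hK'
  obtain ⟨p', hp', C', hC'⟩ := hcube (2 * M) K' (κ1 / 4) (κ1 / 4) (by positivity) (le_max_left _ _)
    (by positivity) (by positivity)
  refine ⟨κ1 * p', by positivity, max 1 (2 * C' / κ1), ?_⟩
  intro n κt inst c A s1 s2 hc hc' hD h1 h2
  have hD1 : 1 ≤ s2 - s1 := (le_max_left _ _).trans hD
  have hD2 : 2 * C' / κ1 ≤ s2 - s1 := (le_max_right _ _).trans hD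
  set P : Measure (Fin n → ℝ) := Measure.pi fun _ : Fin n => μ with hP
  set Q : Measure (Fin n → ℝ × ℝ) := Measure.pi fun _ : Fin n => lam μ xm xp M with hQ
  set Φ : (Fin n → ℝ) → ℝ := fun x => lg ((FE c A x - (s1 + s2) / 2) / (s2 - s1)) with hΦ
  have hCls : Cls xm xp CR n Φ := Cls_FE A hc hc' hx hD1 _
  have hFEm : Measurable (FE c A) := measurable_FE c A
  -- the variance of the smooth indicator
  have hvar : min c1 c2 * (del0 / 2) ^ 2 ≤ ∫ x, Φ x ^ 2 ∂P - (∫ x, Φ x ∂P) ^ 2 := by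
    refine var_lower (S1 := {x | FE c A x ≤ s1}) (S2 := {x | s2 ≤ FE c A x}) hCls.meas hCls.nn hCls.le1
      (measurableSet_le hFEm measurable_const) (measurableSet_le measurable_const hFEm)
      (l := lg (-(1 / 2))) hd0.le ?_ ?_ h1 h2
    · intro x hx'
      apply lg_mono
      rw [div_le_iff₀ (by linarith)]
      have : FE c A x ≤ s1 := hx'
      linarith
    · intro x hx'
      have e : lg (-(1 / 2)) + del0 = lg (1 / 2) := by
        unfold del0
        ring
      rw [e]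
      apply lg_mono
      rw [le_div_iff₀ (by linarith)]
      have : s2 ≤ FE c A x := hx'
      linarith
  have hmain := var_main (μ := μ) (xm := xm) (xp := xp) (CR := CR) (M := M) hx hint hcc0.le hcc1
    (θ := θ0) lam_pos hccθ n Φ hCls
  have hΦ2m : Measurable fun x => Φ x ^ 2 := hCls.meas.pow_const 2
  have hΦ2b : ∀ x, |Φ x ^ 2| ≤ 1 := by
    intro t
    rw [abs_pow]
    exact pow_le_one₀ (abs_nonneg _) (hCls.abs_le t)
  have hav2 := integral_av (μ := μ) (xm := xm) (xp := xp) (M := M) n hΦ2m hΦ2b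
  have hm1 : Measurable (av fun x => Φ x ^ 2) := measurable_av hΦ2m
  have hm2 : Measurable (av Φ) := measurable_av hCls.meas
  have hb1 : ∀ z, |av (fun x => Φ x ^ 2) z| ≤ 1 := abs_av_le hΦ2b
  have hb2 : ∀ z, |av Φ z ^ 2| ≤ 1 := by
    intro z
    rw [abs_pow]
    exact pow_le_one₀ (abs_nonneg _) (abs_av_le hCls.abs_le z)
  have i1 : Integrable (av fun x => Φ x ^ 2) Q := bdd_int hm1 hb1
  have i2 : Integrable (fun z => av Φ z ^ 2) Q := bdd_int (hm2.pow_const 2) hb2
  have hdiff : κ ≤ ∫ z, (av (fun x => Φ x ^ 2) z - av Φ z ^ 2) ∂Q := by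
    rw [integral_sub i1 i2, hav2]
    have h3 : cc * (min c1 c2 * (del0 / 2) ^ 2) ≤ cc * (∫ x, Φ x ^ 2 ∂P - (∫ x, Φ x ∂P) ^ 2) :=
      mul_le_mul_of_nonneg_left hvar hcc0.le
    linarith
  -- good frozen values
  set G : Set (Fin n → ℝ × ℝ) := {z | κ1 ≤ av (fun x => Φ x ^ 2) z - av Φ z ^ 2} with hG
  have hGm : MeasurableSet G := measurableSet_le measurable_const (hm1.sub (hm2.pow_const 2))
  have hGp : κ1 ≤ Q.real G := by
    have h3 : ∫ z, (av (fun x => Φ x ^ 2) z - av Φ z ^ 2) ∂Q ≤ ∫ z, (κ1 + G.indicator (fun _ => (1 : ℝ)) z) ∂Q := by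
      apply integral_mono (i1.sub i2) ((integrable_const _).add ((integrable_const _).indicator hGm))
      intro z
      show av (fun x => Φ x ^ 2) z - av Φ z ^ 2 ≤ κ1 + G.indicator (fun _ => (1 : ℝ)) z
      by_cases hz : z ∈ G
      · rw [indicator_of_mem hz]
        have h4 := (abs_le.1 (hb1 z)).2
        have h5 := sq_nonneg (av Φ z)
        linarith
      · rw [indicator_of_notMem hz]
        have : ¬ κ1 ≤ av (fun x => Φ x ^ 2) z - av Φ z ^ 2 := hz
        linarith
    rw [integral_add (integrable_const _) ((integrable_const _).indicator hGm), integral_indicator hGm,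
      setIntegral_const] at h3
    simp only [integral_const, probReal_univ, smul_eq_mul, mul_one] at h3
    linarith
  -- the conclusion
  set T : Set (Fin n → ℝ) := {x | s2 + K * (s2 - s1) ≤ FE c A x} with hT
  have hTm : MeasurableSet T := measurableSet_le measurable_const hFEm
  have hTi : Measurable (T.indicator fun _ => (1 : ℝ)) := measurable_const.indicator hTm
  have hTb : ∀ x, |T.indicator (fun _ => (1 : ℝ)) x| ≤ 1 := by
    intro x
    by_cases hx' : x ∈ T
    · rw [indicator_of_mem hx']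
      simp
    · rw [indicator_of_notMem hx']
      simp
  have e1 : P.real T = ∫ z, av (T.indicator fun _ => (1 : ℝ)) z ∂Q := by
    rw [integral_av (μ := μ) (xm := xm) (xp := xp) (M := M) n hTi hTb, integral_indicator hTm,
      setIntegral_const]
    simp [hP]
  rw [e1]
  have hae : ∀ᵐ z ∂Q, ∀ i, (z i).1 ≤ (z i).2 ∧ (z i).2 ≤ (z i).1 + 2 * M ∨ (z i).1 = (z i).2 := by
    rw [ae_all_iff]
    intro i
    exact (measurePreserving_eval (fun _ : Fin n => lam μ xm xp M) i).quasiMeasurePreserving.ae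
      (lam_ae (μ := μ) (M := M) hx)
  have h6 : ∫ z, G.indicator (fun _ => p') z ∂Q ≤ ∫ z, av (T.indicator fun _ => (1 : ℝ)) z ∂Q := by
    apply integral_mono_ae ((integrable_const _).indicator hGm) (bdd_int (measurable_av hTi) (abs_av_le hTb))
    filter_upwards [hae] with z hz
    by_cases hzG : z ∈ G
    · rw [indicator_of_mem hzG]
      have h7 : p' * 2 ^ n ≤ ((Finset.univ.filter fun x : Fin n → Bool =>
          s2 + K * (s2 - s1) ≤ FE c A (sel z x)).card : ℝ) := by
        apply cube_step (Θ := 2 * M) (K' := K') (κ := κ1) (C' := C') (fun c A θ s1 s2 => hC' n κt c A θ s1 s2)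
          hc hc' hκ10 ?_ (by linarith) (by linarith) (le_max_right _ _) hD2 hzG
        intro i
        rcases hz i with h8 | h8
        · exact h8
        · rw [h8]
          exact ⟨le_rfl, by linarith⟩
      show p' ≤ av (T.indicator fun _ => (1 : ℝ)) z
      rw [av_ind, le_div_iff₀ (by positivity)]
      exact h7
    · rw [indicator_of_notMem hzG]
      show 0 ≤ av (T.indicator fun _ => (1 : ℝ)) z
      unfold av
      apply div_nonneg _ (by positivity)
      apply Finset.sum_nonneg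
      intro x _
      apply indicator_nonneg
      intro _ _
      exact zero_le_one
  rw [integral_indicator hGm, setIntegral_const, smul_eq_mul] at h6
  exact (mul_le_mul_of_nonneg_right hGp hp'.le).trans h6

end

end Pool.Agent.W_7d29a1_t2
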